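import Mathlib

/-!
# MP_f4f1a8_lc, star-shape law: the recursion for the increments
-/

namespace Pool.Agent.Lib.MP_f4f1a8_lc.Star

/-- One step of the comparison. -/
lemma bad_step {n u v u' v' α β : ℝ} (hα : 1 ≤ α) (hβ : 0 < β) (hαβ : α + β = n + 1)
    (hbad : u * β ≤ v * α) (h1 : u' + 1 ≤ u) (h2 : v + 1 ≤ v') (h3 : u' + v ≤ n) :
    u' * (β + 1) ≤ v' * (α - 1) := by
  have h4 : (v + 1) * (α - 1) ≤ v' * (α - 1) := mul_le_mul_of_nonneg_right h2 (by linarith)
  refine le_trans ?_ h4
  rcases le_or_gt β v with hv | hv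
  · have h5 : u' * (β + 1) ≤ (n - v) * (β + 1) :=
      mul_le_mul_of_nonneg_right (by linarith) (by linarith)
    refine h5.trans ?_
    have e : (v + 1) * (α - 1) - (n - v) * (β + 1) = (v - β) * (α + β) := by
      have : n = α + β - 1 := by linarith
      rw [this]; ring
    have : 0 ≤ (v - β) * (α + β) := mul_nonneg (by linarith) (by linarith)
    linarith
  · have h5 : u' * (β + 1) ≤ (u - 1) * (β + 1) :=
      mul_le_mul_of_nonneg_right (by linarith) (by linarith)
    refine h5.trans ?_
    have h6 : β * ((u - 1) * (β + 1)) ≤ β * ((v + 1) * (α - 1)) := by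
      have e1 : β * ((u - 1) * (β + 1)) = (u * β - β) * (β + 1) := by ring
      have e2 : (u * β - β) * (β + 1) ≤ (v * α - β) * (β + 1) :=
        mul_le_mul_of_nonneg_right (by linarith) (by linarith)
      have e3 : β * ((v + 1) * (α - 1)) - (v * α - β) * (β + 1) = (α + β) * (β - v) := by ring
      have : 0 ≤ (α + β) * (β - v) := mul_nonneg (by linarith) (by linarith)
      rw [e1]
      linarith
    exact le_of_mul_le_mul_left h6 hβ

/-- If the increments of `H` are `log (u j / v (j + 1))` with `u` decreasing and `v` increasing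
by at least one in each step and `u j + v j ≤ n`, then `H` is above each chord
`l + log (n choose (t + j))`. -/
lemma chord (n t D : ℕ) (H u v : ℕ → ℝ) (l : ℝ) (htD : t + D ≤ n)
    (hu : ∀ j < D, 0 < u j) (hv : ∀ j < D, 0 < v (j + 1))
    (hH : ∀ j < D, H (j + 1) - H j = Real.log (u j) - Real.log (v (j + 1)))
    (h1 : ∀ j, j + 2 ≤ D → u (j + 1) + 1 ≤ u j)
    (h2 : ∀ j, j + 2 ≤ D → v (j + 1) + 1 ≤ v (j + 2))
    (h3 : ∀ j, j + 2 ≤ D → u (j + 1) + v (j + 1) ≤ n)
    (ha : l + Real.log (n.choose t) ≤ H 0)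
    (hb : l + Real.log (n.choose (t + D)) ≤ H D) :
    ∀ d ≤ D, l + Real.log (n.choose (t + d)) ≤ H d := by
  set δ : ℕ → ℝ := fun j => H j - l - Real.log (n.choose (t + j)) with hδ
  have hchoose : ∀ j < D, Real.log (n.choose (t + (j + 1))) - Real.log (n.choose (t + j)) =
      Real.log ((n : ℝ) - t - j) - Real.log ((t : ℝ) + j + 1) := by
    intro j hj
    have e := Nat.choose_succ_right_eq n (t + j)
    have e2 : ((n.choose (t + j + 1) : ℕ) : ℝ) * ((t : ℝ) + j + 1) =
        (n.choose (t + j) : ℕ) * ((n : ℝ) - t - j) := by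
      have e3 : ((n - (t + j) : ℕ) : ℝ) = (n : ℝ) - t - j := by
        rw [Nat.cast_sub (by omega)]; push_cast; ring
      rw [← e3]
      exact_mod_cast e
    have p1 : (0 : ℝ) < (n.choose (t + j + 1) : ℕ) := by
      exact_mod_cast Nat.choose_pos (by omega)
    have p2 : (0 : ℝ) < (n.choose (t + j) : ℕ) := by
      exact_mod_cast Nat.choose_pos (by omega)
    have p3 : (0 : ℝ) < (n : ℝ) - t - j := by
      have : ((t + j + 1 : ℕ) : ℝ) ≤ n := by exact_mod_cast (by omega : t + j + 1 ≤ n)
      push_cast at this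
      linarith
    have p4 : (0 : ℝ) < (t : ℝ) + j + 1 := by positivity
    have e4 := congrArg Real.log e2
    rw [Real.log_mul p1.ne' p4.ne', Real.log_mul p2.ne' p3.ne'] at e4
    rw [show t + (j + 1) = t + j + 1 by ring]
    linarith
  have hstep : ∀ j < D, δ (j + 1) - δ j =
      Real.log (u j * ((t : ℝ) + j + 1)) - Real.log (v (j + 1) * ((n : ℝ) - t - j)) := by
    intro j hj
    have p3 : (0 : ℝ) < (n : ℝ) - t - j := by
      have : ((t + j + 1 : ℕ) : ℝ) ≤ n := by exact_mod_cast (by omega : t + j + 1 ≤ n)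
      push_cast at this
      linarith
    have p4 : (0 : ℝ) < (t : ℝ) + j + 1 := by positivity
    rw [Real.log_mul (hu j hj).ne' p4.ne', Real.log_mul (hv j hj).ne' p3.ne']
    have := hH j hj
    have := hchoose j hj
    simp only [hδ]
    linarith
  have hpos : ∀ j < D, (0 : ℝ) < (n : ℝ) - t - j := by
    intro j hj
    have : ((t + j + 1 : ℕ) : ℝ) ≤ n := by exact_mod_cast (by omega : t + j + 1 ≤ n)
    push_cast at this
    linarith
  have hbad1 : ∀ j < D, u j * ((t : ℝ) + j + 1) ≤ v (j + 1) * ((n : ℝ) - t - j) →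
      δ (j + 1) ≤ δ j := by
    intro j hj hb
    have := hstep j hj
    have := Real.log_le_log (mul_pos (hu j hj) (by positivity)) hb
    linarith
  have hbad2 : ∀ j < D, δ (j + 1) < δ j →
      u j * ((t : ℝ) + j + 1) ≤ v (j + 1) * ((n : ℝ) - t - j) := by
    intro j hj hb
    by_contra hcon
    push Not at hcon
    have := hstep j hj
    have := Real.log_le_log (mul_pos (hv j hj) (hpos j hj)) hcon.le
    linarith
  have hbad3 : ∀ j, j + 2 ≤ D → u j * ((t : ℝ) + j + 1) ≤ v (j + 1) * ((n : ℝ) - t - j) →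
      u (j + 1) * ((t : ℝ) + (j + 1 : ℕ) + 1) ≤ v (j + 2) * ((n : ℝ) - t - (j + 1 : ℕ)) := by
    intro j hj hb
    have hα : (1 : ℝ) ≤ (n : ℝ) - t - j := by
      have : ((t + j + 1 : ℕ) : ℝ) ≤ n := by exact_mod_cast (by omega : t + j + 1 ≤ n)
      push_cast at this
      linarith
    have := bad_step (n := n) hα (show (0 : ℝ) < (t : ℝ) + j + 1 by positivity) (by ring) hb
      (h1 j hj) (h2 j hj) (h3 j hj)
    push_cast
    have e1 : (t : ℝ) + (j + 1) + 1 = (t : ℝ) + j + 1 + 1 := by ring
    have e2 : (n : ℝ) - t - (j + 1) = (n : ℝ) - t - j - 1 := by ring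
    rw [e1, e2]
    exact this
  have hA : ∀ d ≤ D, δ d < 0 → ∃ j < d, u j * ((t : ℝ) + j + 1) ≤
      v (j + 1) * ((n : ℝ) - t - j) := by
    intro d
    induction d with
    | zero =>
      intro _ h
      simp only [hδ, add_zero] at h
      linarith
    | succ d ih =>
      intro hd h
      by_cases hdd : δ d < 0
      · obtain ⟨j, hj, hb⟩ := ih (by omega) hdd
        exact ⟨j, by omega, hb⟩
      · exact ⟨d, by omega, hbad2 d (by omega) (by linarith)⟩
  have hB : ∀ j, u j * ((t : ℝ) + j + 1) ≤ v (j + 1) * ((n : ℝ) - t - j) → ∀ i, j + i < D →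
      u (j + i) * ((t : ℝ) + (j + i : ℕ) + 1) ≤ v (j + i + 1) * ((n : ℝ) - t - (j + i : ℕ)) := by
    intro j hb i
    induction i with
    | zero => intro _; simpa using hb
    | succ i ih =>
      intro hi
      exact hbad3 (j + i) (by omega) (ih (by omega))
  intro d hd
  by_contra hcon
  push Not at hcon
  have hneg : δ d < 0 := by simp only [hδ]; linarith
  obtain ⟨j, hj, hb⟩ := hA d hd hneg
  have hC : ∀ i, d + i ≤ D → δ (d + i) < 0 := by
    intro i
    induction i with
    | zero => intro _; simpa using hneg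
    | succ i ih =>
      intro hi
      have h5 := ih (by omega)
      have h6 := hB j hb (d + i - j) (by omega)
      rw [show j + (d + i - j) = d + i by omega] at h6
      have h7 := hbad1 (d + i) (by omega) h6
      have : δ (d + (i + 1)) = δ (d + i + 1) := rfl
      linarith
  have h8 := hC (D - d) (by omega)
  rw [show d + (D - d) = D by omega] at h8
  simp only [hδ] at h8
  linarith

end Pool.Agent.Lib.MP_f4f1a8_lc.Star
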