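import Pool.Agent.Lib.MP_f4f1a8_lc.Star.Jen
import Pool.Agent.Lib.MP_f4f1a8_lc.Star.Det

/-!
# MP_f4f1a8_lc, star-shape law: the entropies along a random geodesic of the cube
-/

namespace Pool.Agent.Lib.MP_f4f1a8_lc.Star

open Finset

/-- Flip the coordinate `i`. -/
def fl {n : ℕ} (z : Fin n → Bool) (i : Fin n) : Fin n → Bool := Function.update z i (!z i)

lemma fl_fl {n : ℕ} (z : Fin n → Bool) (i : Fin n) : fl (fl z i) i = z := by
  unfold fl
  simp

lemma fl_comm {n : ℕ} (z : Fin n → Bool) (i j : Fin n) : fl (fl z i) j = fl (fl z j) i := by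
  by_cases h : i = j
  · rw [h]
  · unfold fl
    rw [Function.update_of_ne (Ne.symm h), Function.update_of_ne h,
      Function.update_comm (Ne.symm h)]

/-- Flipping is a permutation. -/
def flEquiv {n : ℕ} (i : Fin n) : (Fin n → Bool) ≃ (Fin n → Bool) where
  toFun z := fl z i
  invFun z := fl z i
  left_inv z := fl_fl z i
  right_inv z := fl_fl z i

lemma sum_fl {n : ℕ} (φ : (Fin n → Bool) → ℝ) (i : Fin n) :
    ∑ z, φ (fl z i) = ∑ z, φ z :=
  (flEquiv i).sum_comp φ

/-- Sums over edges may be computed from both ends. -/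
lemma sum_edge {n : ℕ} (G : (Fin n → Bool) → Fin n → ℝ) :
    ∑ z, ∑ i, G (fl z i) i = ∑ z, ∑ i, G z i := by
  rw [Finset.sum_comm, Finset.sum_comm (f := fun z i => G z i)]
  exact Finset.sum_congr rfl fun i _ => sum_fl (fun z => G z i) i

/-- Powers of the adjacency operator of the cube. -/
noncomputable def It {n : ℕ} : ℕ → ((Fin n → Bool) → ℝ) → (Fin n → Bool) → ℝ
  | 0, φ => φ
  | m + 1, φ => fun z => ∑ i, It m φ (fl z i)

lemma It_succ {n : ℕ} (m : ℕ) (φ : (Fin n → Bool) → ℝ) (z : Fin n → Bool) :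
    It (m + 1) φ z = ∑ i, It m φ (fl z i) := rfl

lemma It_nonneg {n : ℕ} {φ : (Fin n → Bool) → ℝ} (h : ∀ z, 0 ≤ φ z) :
    ∀ (m : ℕ) (z : Fin n → Bool), 0 ≤ It m φ z
  | 0, z => h z
  | m + 1, z => Finset.sum_nonneg fun i _ => It_nonneg h m (fl z i)

lemma It_adj {n : ℕ} (f g : (Fin n → Bool) → ℝ) (m k : ℕ) :
    ∑ z, It (m + 1) f z * It k g z = ∑ z, It m f z * It (k + 1) g z := by
  simp_rw [It_succ, Finset.sum_mul, Finset.mul_sum]
  have h := sum_edge (fun z i => It m f z * It k g (fl z i))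
  simp only [fl_fl] at h
  exact h

lemma It_norm {n : ℕ} (f g : (Fin n → Bool) → ℝ) (D : ℕ) : ∀ j ≤ D,
    ∑ z, It j f z * It (D - j) g z = ∑ z, f z * It D g z
  | 0, _ => rfl
  | j + 1, hj => by
      rw [It_adj, show D - (j + 1) + 1 = D - j by omega]
      exact It_norm f g D j (by omega)

/-- The law of the `j`-th point. -/
noncomputable def Pj {n : ℕ} (f g : (Fin n → Bool) → ℝ) (D j : ℕ) (z : Fin n → Bool) : ℝ :=
  It j f z * It (D - j) g z

/-- The law of the `j`-th edge. -/
noncomputable def Wj {n : ℕ} (f g : (Fin n → Bool) → ℝ) (D j : ℕ) (z : Fin n → Bool)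
    (i : Fin n) : ℝ :=
  It j f z * It (D - j - 1) g (fl z i)

/-- Entropy of a function on the cube. -/
noncomputable def Hp {n : ℕ} (p : (Fin n → Bool) → ℝ) : ℝ := ∑ z, Real.negMulLog (p z)

/-- Entropy of a function on the edges. -/
noncomputable def HW {n : ℕ} (W : (Fin n → Bool) → Fin n → ℝ) : ℝ :=
  ∑ z, ∑ i, Real.negMulLog (W z i)

section

variable {n : ℕ} {f g : (Fin n → Bool) → ℝ} {D : ℕ}

lemma Pj_nonneg (hf : ∀ z, 0 ≤ f z) (hg : ∀ z, 0 ≤ g z) (j : ℕ) (z : Fin n → Bool) :
    0 ≤ Pj f g D j z :=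
  mul_nonneg (It_nonneg hf j z) (It_nonneg hg _ z)

lemma Wj_nonneg (hf : ∀ z, 0 ≤ f z) (hg : ∀ z, 0 ≤ g z) (j : ℕ) (z : Fin n → Bool)
    (i : Fin n) : 0 ≤ Wj f g D j z i :=
  mul_nonneg (It_nonneg hf j z) (It_nonneg hg _ _)

lemma Wj_sum {j : ℕ} (hj : j < D) (z : Fin n → Bool) : Pj f g D j z = ∑ i, Wj f g D j z i := by
  unfold Pj Wj
  rw [← Finset.mul_sum, ← It_succ, show D - j - 1 + 1 = D - j by omega]

lemma Wj_sum' {j : ℕ} (hj : j < D) (z : Fin n → Bool) :
    Pj f g D (j + 1) z = ∑ i, Wj f g D j (fl z i) i := by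
  unfold Pj Wj
  simp only [fl_fl]
  rw [← Finset.sum_mul, ← It_succ, show D - (j + 1) = D - j - 1 by omega]

lemma HW_sub (W : (Fin n → Bool) → Fin n → ℝ) (P : (Fin n → Bool) → ℝ)
    (hP : ∀ z, P z = ∑ i, W z i) :
    HW W - Hp P = ∑ z, ∑ i, W z i * (Real.log (P z) - Real.log (W z i)) := by
  unfold HW Hp
  rw [← Finset.sum_sub_distrib]
  refine Finset.sum_congr rfl fun z _ => ?_
  have e : Real.negMulLog (P z) = ∑ i, -(W z i * Real.log (P z)) := by
    rw [Finset.sum_neg_distrib, ← Finset.sum_mul, ← hP]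
    simp [Real.negMulLog]
  rw [e, ← Finset.sum_sub_distrib]
  refine Finset.sum_congr rfl fun i _ => ?_
  simp only [Real.negMulLog]
  ring

/-- The forward inequality. -/
lemma forward (hf : ∀ z, 0 ≤ f z) (hg : ∀ z, 0 ≤ g z)
    (hsep : ∀ j m, j + m < D → ∀ z, It j f z * It m g z = 0)
    (hn : ∑ z, f z * It D g z = 1) {j : ℕ} (hj : j + 2 ≤ D) :
    Real.exp (HW (Wj f g D (j + 1)) - Hp (Pj f g D (j + 1))) + 1 ≤
      Real.exp (HW (Wj f g D j) - Hp (Pj f g D j)) := by
  have h := triple (fun z i k => It j f z * It (D - j - 2) g (fl (fl z i) k))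
    (Wj f g D j) (Pj f g D j)
    (fun z i k => mul_nonneg (It_nonneg hf j z) (It_nonneg hg _ _))
    (fun z i k => by rw [fl_comm])
    (fun z i => by rw [fl_fl]; exact hsep _ _ (by omega) z)
    (fun z i => by
      unfold Wj
      rw [← Finset.mul_sum, ← It_succ, show D - j - 2 + 1 = D - j - 1 by omega])
    (fun z => Wj_sum (by omega) z)
    (by rw [← hn]; exact It_norm f g D j (by omega))
  rw [← HW_sub _ _ (fun z => Wj_sum (f := f) (g := g) (D := D) (j := j) (by omega) z)] at h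
  rw [HW_sub _ _ (fun z => Wj_sum (f := f) (g := g) (D := D) (j := j + 1) (by omega) z)]
  refine le_trans (le_of_eq ?_) h
  congr 2
  symm
  have h2 := sum_edge (fun z i => ∑ k, It j f z * It (D - j - 2) g (fl (fl z i) k) *
    (Real.log (Wj f g D j z i) -
      Real.log (It j f z * It (D - j - 2) g (fl (fl z i) k))))
  rw [← h2]
  refine Finset.sum_congr rfl fun z _ => ?_
  rw [Finset.sum_comm]
  refine Finset.sum_congr rfl fun k _ => ?_
  have e0 : Wj f g D (j + 1) z k = ∑ i, It j f (fl z i) * It (D - j - 2) g (fl z k) := by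
    unfold Wj
    rw [It_succ, Finset.sum_mul, show D - (j + 1) - 1 = D - j - 2 by omega]
  rw [e0, Finset.sum_mul]
  refine Finset.sum_congr rfl fun i _ => ?_
  simp only [fl_fl]
  by_cases h0 : It j f (fl z i) * It (D - j - 2) g (fl z k) = 0
  · rw [h0]; simp
  · congr 1
    have a1 : It j f (fl z i) ≠ 0 := left_ne_zero_of_mul h0
    have a2 : It (D - j - 2) g (fl z k) ≠ 0 := right_ne_zero_of_mul h0
    have a3 : It (j + 1) f z ≠ 0 := by
      rw [It_succ]
      have h3 := Finset.single_le_sum (f := fun i => It j f (fl z i))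
        (fun i _ => It_nonneg hf j (fl z i)) (mem_univ i)
      have h4 := lt_of_le_of_ne (It_nonneg hf j (fl z i)) (Ne.symm a1)
      exact (lt_of_lt_of_le h4 h3).ne'
    have a4 : It (D - j - 1) g z ≠ 0 := by
      rw [show D - j - 1 = D - j - 2 + 1 by omega, It_succ]
      have h3 := Finset.single_le_sum (f := fun k => It (D - j - 2) g (fl z k))
        (fun k _ => It_nonneg hg _ (fl z k)) (mem_univ k)
      have h4 := lt_of_le_of_ne (It_nonneg hg _ (fl z k)) (Ne.symm a2)
      exact (lt_of_lt_of_le h4 h3).ne'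
    have e1 : Wj f g D j (fl z i) i = It j f (fl z i) * It (D - j - 1) g z := by
      unfold Wj; rw [fl_fl]
    have e2 : Pj f g D (j + 1) z = It (j + 1) f z * It (D - j - 1) g z := by
      unfold Pj; rw [show D - (j + 1) = D - j - 1 by omega]
    rw [e1, e2, ← Finset.sum_mul, ← It_succ, Real.log_mul a1 a4, Real.log_mul a1 a2,
      Real.log_mul a3 a4, Real.log_mul a3 a2]
    ring

lemma Pj_rev {m : ℕ} (hm : m ≤ D) : Pj g f D m = Pj f g D (D - m) := by
  funext z
  unfold Pj
  rw [show D - (D - m) = m by omega, mul_comm]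

lemma HW_rev {m : ℕ} (hm : m < D) : HW (Wj g f D m) = HW (Wj f g D (D - m - 1)) := by
  unfold HW
  have h := sum_edge (fun z i => Real.negMulLog (Wj f g D (D - m - 1) z i))
  rw [← h]
  refine Finset.sum_congr rfl fun z _ => Finset.sum_congr rfl fun i _ => ?_
  unfold Wj
  rw [fl_fl, show D - (D - m - 1) - 1 = m by omega, mul_comm]

lemma It_norm_rev (hn : ∑ z, f z * It D g z = 1) : ∑ z, g z * It D f z = 1 := by
  rw [← hn, ← It_norm f g D D le_rfl, Nat.sub_self]
  exact Finset.sum_congr rfl fun z _ => mul_comm _ _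

/-- The backward inequality. -/
lemma backward (hf : ∀ z, 0 ≤ f z) (hg : ∀ z, 0 ≤ g z)
    (hsep : ∀ j m, j + m < D → ∀ z, It j f z * It m g z = 0)
    (hn : ∑ z, f z * It D g z = 1) {j : ℕ} (hj : j + 2 ≤ D) :
    Real.exp (HW (Wj f g D j) - Hp (Pj f g D (j + 1))) + 1 ≤
      Real.exp (HW (Wj f g D (j + 1)) - Hp (Pj f g D (j + 2))) := by
  have h := forward (f := g) (g := f) (D := D) hg hf
    (fun a b hab z => by rw [mul_comm]; exact hsep b a (by omega) z) (It_norm_rev hn)
    (j := D - j - 2) (by omega)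
  rw [Pj_rev (f := f) (g := g) (m := D - j - 2) (by omega),
    Pj_rev (f := f) (g := g) (m := D - j - 2 + 1) (by omega),
    HW_rev (f := f) (g := g) (m := D - j - 2) (by omega),
    HW_rev (f := f) (g := g) (m := D - j - 2 + 1) (by omega)] at h
  rw [show D - (D - j - 2 + 1) - 1 = j by omega, show D - (D - j - 2 + 1) = j + 1 by omega,
    show D - (D - j - 2) - 1 = j + 1 by omega, show D - (D - j - 2) = j + 2 by omega] at h
  exact h

/-- The numbers of possible next and previous steps add up to at most `n`. -/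
lemma both (hf : ∀ z, 0 ≤ f z) (hg : ∀ z, 0 ≤ g z)
    (hsep : ∀ j m, j + m < D → ∀ z, It j f z * It m g z = 0)
    (hn : ∑ z, f z * It D g z = 1) {j : ℕ} (hj : j + 2 ≤ D) :
    Real.exp (HW (Wj f g D (j + 1)) - Hp (Pj f g D (j + 1))) +
      Real.exp (HW (Wj f g D j) - Hp (Pj f g D (j + 1))) ≤ n := by
  have hN : ∑ z, Pj f g D (j + 1) z = 1 := by
    rw [← hn]; exact It_norm f g D (j + 1) (by omega)
  have h1 := cond_le (Wj f g D (j + 1)) (Pj f g D (j + 1)) (fun z i => Wj_nonneg hf hg _ z i)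
    (fun z => Wj_sum (by omega) z) hN
  rw [← HW_sub _ _ (fun z => Wj_sum (f := f) (g := g) (D := D) (j := j + 1) (by omega) z)] at h1
  have h2 := cond_le (fun z i => Wj f g D j (fl z i) i) (Pj f g D (j + 1))
    (fun z i => Wj_nonneg hf hg _ _ i) (fun z => Wj_sum' (by omega) z) hN
  rw [← HW_sub _ _ (fun z => Wj_sum' (f := f) (g := g) (D := D) (j := j) (by omega) z)] at h2
  have e : HW (fun z i => Wj f g D j (fl z i) i) = HW (Wj f g D j) :=
    sum_edge (fun z i => Real.negMulLog (Wj f g D j z i))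
  rw [e] at h2
  refine (add_le_add h1 h2).trans ?_
  rw [← Finset.sum_add_distrib]
  calc ∑ z, (Pj f g D (j + 1) z * ((univ.filter (fun i => Wj f g D (j + 1) z i ≠ 0)).card : ℝ) +
        Pj f g D (j + 1) z * ((univ.filter (fun i => Wj f g D j (fl z i) i ≠ 0)).card : ℝ))
      ≤ ∑ z, Pj f g D (j + 1) z * n := by
        refine Finset.sum_le_sum fun z _ => ?_
        rw [← mul_add]
        refine mul_le_mul_of_nonneg_left ?_ (Pj_nonneg hf hg _ z)
        have hdis : Disjoint (univ.filter (fun i => Wj f g D (j + 1) z i ≠ 0))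
            (univ.filter (fun i => Wj f g D j (fl z i) i ≠ 0)) := by
          rw [Finset.disjoint_filter]
          intro i _ ha hb
          unfold Wj at ha hb
          have a1 := right_ne_zero_of_mul ha
          have b1 := left_ne_zero_of_mul hb
          rcases mul_eq_zero.1 (hsep j (D - (j + 1) - 1) (by omega) (fl z i)) with h | h
          · exact b1 h
          · exact a1 h
        have := Finset.card_union_of_disjoint hdis
        have h3 := Finset.card_le_univ ((univ.filter (fun i => Wj f g D (j + 1) z i ≠ 0)) ∪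
            (univ.filter (fun i => Wj f g D j (fl z i) i ≠ 0)))
        rw [this, Fintype.card_fin] at h3
        exact_mod_cast h3
    _ = n := by rw [← Finset.sum_mul, hN, one_mul]

/-- The entropies of the points of a random geodesic lie above each chord. -/
theorem ent_chord (hf : ∀ z, 0 ≤ f z) (hg : ∀ z, 0 ≤ g z)
    (hsep : ∀ j m, j + m < D → ∀ z, It j f z * It m g z = 0)
    (hn : ∑ z, f z * It D g z = 1) (t : ℕ) (l : ℝ) (htD : t + D ≤ n)
    (ha : l + Real.log (n.choose t) ≤ Hp (Pj f g D 0))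
    (hb : l + Real.log (n.choose (t + D)) ≤ Hp (Pj f g D D)) :
    ∀ d ≤ D, l + Real.log (n.choose (t + d)) ≤ Hp (Pj f g D d) := by
  refine chord n t D (fun j => Hp (Pj f g D j))
    (fun j => Real.exp (HW (Wj f g D j) - Hp (Pj f g D j)))
    (fun j => Real.exp (HW (Wj f g D (j - 1)) - Hp (Pj f g D j))) l htD
    (fun j _ => Real.exp_pos _) (fun j _ => Real.exp_pos _) ?_ ?_ ?_ ?_ ha hb
  · intro j _
    simp only [Real.log_exp, Nat.add_sub_cancel]
    ring
  · intro j hj
    exact forward hf hg hsep hn hj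
  · intro j hj
    exact backward hf hg hsep hn hj
  · intro j hj
    exact both hf hg hsep hn hj

end

end Pool.Agent.Lib.MP_f4f1a8_lc.Star
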