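import Pool.Agent.Lib.MP_f4f1a8_lc.Star.Walk

/-!
# MP_f4f1a8_lc, star-shape law: choice of the subset and of the level
-/

namespace Pool.Agent.Lib.MP_f4f1a8_lc.Star

open Finset

variable {n : ℕ}

/-- The weight of a distance. -/
noncomputable def wt (n D k : ℕ) : ℝ := if k ≤ D then ((2 : ℝ) ^ n) ^ (D - k) else 0

lemma wt_nonneg (n D k : ℕ) : 0 ≤ wt n D k := by
  unfold wt
  split_ifs
  · positivity
  · exact le_rfl

lemma wt_le (n D k : ℕ) : wt n D k ≤ ((2 : ℝ) ^ n) ^ D := by
  unfold wt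
  have h1 : (1 : ℝ) ≤ 2 ^ n := one_le_pow₀ (by norm_num)
  split_ifs
  · exact pow_le_pow_right₀ h1 (by omega)
  · positivity

/-- The local potential. -/
noncomputable def th (D : ℕ) (G : Finset (Fin n → Bool)) (y : Fin n → Bool) : ℝ :=
  Real.log (1 + ∑ x ∈ G, wt n D (hammingDist x y))

/-- The potential. -/
noncomputable def SS (D : ℕ) (G : Finset (Fin n → Bool)) : ℝ := ∑ y, th D G y

lemma sum_wt_nonneg (D : ℕ) (G : Finset (Fin n → Bool)) (y : Fin n → Bool) :
    0 ≤ ∑ x ∈ G, wt n D (hammingDist x y) :=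
  Finset.sum_nonneg fun _ _ => wt_nonneg _ _ _

lemma th_nonneg (D : ℕ) (G : Finset (Fin n → Bool)) (y : Fin n → Bool) : 0 ≤ th D G y :=
  Real.log_nonneg (by have := sum_wt_nonneg D G y; linarith)

lemma SS_nonneg (D : ℕ) (G : Finset (Fin n → Bool)) : 0 ≤ SS D G :=
  Finset.sum_nonneg fun y _ => th_nonneg D G y

lemma card_le_two_pow (G : Finset (Fin n → Bool)) : (G.card : ℝ) ≤ 2 ^ n := by
  have h := Finset.card_le_univ G
  rw [Fintype.card_fun, Fintype.card_fin, Fintype.card_bool] at h
  exact_mod_cast h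

lemma th_le {D : ℕ} (hD : D ≤ n) (G : Finset (Fin n → Bool)) (y : Fin n → Bool) :
    th D G y ≤ ((n : ℝ) + 1) ^ 2 := by
  have h1 : (1 : ℝ) ≤ 2 ^ n := one_le_pow₀ (by norm_num)
  have h2 : ∑ x ∈ G, wt n D (hammingDist x y) ≤ 2 ^ n * ((2 : ℝ) ^ n) ^ D := by
    calc ∑ x ∈ G, wt n D (hammingDist x y) ≤ ∑ _x ∈ G, ((2 : ℝ) ^ n) ^ D :=
          Finset.sum_le_sum fun x _ => wt_le _ _ _
      _ = G.card * ((2 : ℝ) ^ n) ^ D := by rw [Finset.sum_const, nsmul_eq_mul]
      _ ≤ _ := mul_le_mul_of_nonneg_right (card_le_two_pow G) (by positivity)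
  have h3 : 1 + ∑ x ∈ G, wt n D (hammingDist x y) ≤ (2 : ℝ) ^ (n * (D + 1) + 1) := by
    have e : (2 : ℝ) ^ (n * (D + 1) + 1) = 2 * (2 ^ n * ((2 : ℝ) ^ n) ^ D) := by
      rw [← pow_succ', ← pow_mul]
      ring
    have h4 : (1 : ℝ) ≤ 2 ^ n * ((2 : ℝ) ^ n) ^ D := by
      rw [← pow_succ']
      exact one_le_pow₀ h1
    rw [e]; linarith
  have h5 := sum_wt_nonneg D G y
  have h6 := Real.log_le_log (by linarith) h3
  rw [Real.log_pow] at h6
  have h7 : Real.log 2 ≤ 1 := by
    have := Real.log_two_lt_d9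
    linarith
  have h8 : ((n * (D + 1) + 1 : ℕ) : ℝ) ≤ ((n : ℝ) + 1) ^ 2 := by
    have : n * (D + 1) + 1 ≤ (n + 1) ^ 2 := by nlinarith
    exact_mod_cast this
  unfold th
  calc _ ≤ ((n * (D + 1) + 1 : ℕ) : ℝ) * Real.log 2 := h6
    _ ≤ ((n * (D + 1) + 1 : ℕ) : ℝ) * 1 := mul_le_mul_of_nonneg_left h7 (by positivity)
    _ ≤ _ := by rw [mul_one]; exact h8

lemma th_eq_zero {D : ℕ} {G : Finset (Fin n → Bool)} {y : Fin n → Bool}
    (h : ∀ x ∈ G, D < hammingDist x y) : th D G y = 0 := by
  unfold th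
  rw [Finset.sum_eq_zero, add_zero, Real.log_one]
  intro x hx
  unfold wt
  rw [if_neg (by have := h x hx; omega)]

lemma SS_le {D : ℕ} (hD : D ≤ n) (G N : Finset (Fin n → Bool))
    (hN : ∀ y x, x ∈ G → hammingDist x y ≤ D → y ∈ N) :
    SS D G ≤ N.card * ((n : ℝ) + 1) ^ 2 := by
  unfold SS
  have h1 : ∀ y ∈ (univ : Finset (Fin n → Bool)),
      th D G y ≤ if y ∈ N then ((n : ℝ) + 1) ^ 2 else 0 := by
    intro y _
    by_cases hy : y ∈ N
    · rw [if_pos hy]; exact th_le hD G y
    · rw [if_neg hy, th_eq_zero]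
      intro x hx
      by_contra hcon
      exact hy (hN y x hx (by omega))
  refine (Finset.sum_le_sum h1).trans (le_of_eq ?_)
  rw [← Finset.sum_filter, Finset.filter_mem_eq_inter, Finset.univ_inter, Finset.sum_const,
    nsmul_eq_mul]

lemma log_sub_ge {a b : ℝ} (ha : 0 < a) (hb : 0 < b) : (a - b) / a ≤ Real.log a - Real.log b := by
  have h := Real.log_le_sub_one_of_pos (div_pos hb ha)
  rw [Real.log_div hb.ne' ha.ne'] at h
  have e : (a - b) / a = 1 - b / a := by field_simp
  rw [e]; linarith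

lemma th_erase_le [DecidableEq (Fin n → Bool)] (D : ℕ) (G : Finset (Fin n → Bool))
    (x y : Fin n → Bool) : th D (G.erase x) y ≤ th D G y := by
  unfold th
  refine Real.log_le_log (by have := sum_wt_nonneg D (G.erase x) y; linarith) ?_
  have := Finset.sum_le_sum_of_subset_of_nonneg (f := fun x => wt n D (hammingDist x y))
    (Finset.erase_subset x G) (fun _ _ _ => wt_nonneg _ _ _)
  linarith

/-- Removing a nearest point decreases the local potential. -/
lemma th_erase [DecidableEq (Fin n → Bool)] {D k : ℕ} (hk : k ≤ D)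
    (G : Finset (Fin n → Bool)) {x y : Fin n → Bool} (hx : x ∈ G) (hxy : hammingDist x y = k)
    (hmin : ∀ x' ∈ G, k ≤ hammingDist x' y) :
    1 / (3 * ((G.filter (fun x' => hammingDist x' y = k)).card : ℝ)) ≤
      th D G y - th D (G.erase x) y := by
  set r : ℝ := ((G.filter (fun x' => hammingDist x' y = k)).card : ℝ) with hr
  have hr1 : 1 ≤ r := by
    rw [hr]
    exact_mod_cast Finset.card_pos.2 ⟨x, Finset.mem_filter.2 ⟨hx, hxy⟩⟩
  set w : ℝ := ((2 : ℝ) ^ n) ^ (D - k) with hw
  have h2n : (1 : ℝ) ≤ 2 ^ n := one_le_pow₀ (by norm_num)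
  have hw1 : 1 ≤ w := one_le_pow₀ h2n
  have hwk : wt n D k = w := by unfold wt; rw [if_pos hk]
  set a : ℝ := 1 + ∑ x ∈ G, wt n D (hammingDist x y) with ha
  have hb : 1 + ∑ x ∈ G.erase x, wt n D (hammingDist x y) = a - w := by
    have := Finset.add_sum_erase G (fun x => wt n D (hammingDist x y)) hx
    simp only [hxy, hwk] at this
    rw [ha, ← this]; ring
  have hb0 : 0 < a - w := by
    rw [← hb]
    have := sum_wt_nonneg D (G.erase x) y
    linarith
  have ha0 : 0 < a := by linarith
  have hfar : ∀ x' ∈ G, wt n D (hammingDist x' y) ≤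
      (if hammingDist x' y = k then w else 0) + w / 2 ^ n := by
    intro x' hx'
    by_cases h : hammingDist x' y = k
    · rw [if_pos h, h, hwk]
      have : 0 ≤ w / 2 ^ n := by positivity
      linarith
    · rw [if_neg h, zero_add]
      have h3 : k < hammingDist x' y := lt_of_le_of_ne (hmin x' hx') (Ne.symm h)
      unfold wt
      split_ifs with h4
      · rw [le_div_iff₀ (by positivity), hw, ← pow_succ]
        exact pow_le_pow_right₀ h2n (by omega)
      · positivity
  have ha3 : a ≤ 3 * r * w := by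
    have h5 := Finset.sum_le_sum hfar
    rw [Finset.sum_add_distrib, ← Finset.sum_filter, Finset.sum_const, Finset.sum_const,
      nsmul_eq_mul, nsmul_eq_mul] at h5
    have h6 : (G.card : ℝ) * (w / 2 ^ n) ≤ w := by
      have := card_le_two_pow G
      calc (G.card : ℝ) * (w / 2 ^ n) ≤ 2 ^ n * (w / 2 ^ n) :=
            mul_le_mul_of_nonneg_right this (by positivity)
        _ = w := by field_simp
    have h7 : w ≤ r * w := by nlinarith
    have h8 : a ≤ 1 + (r * w + w) := by
      rw [ha]; linarith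
    nlinarith
  have h9 := log_sub_ge ha0 hb0
  unfold th
  rw [hb]
  refine le_trans ?_ h9
  rw [show a - (a - w) = w by ring, div_le_div_iff₀ (by positivity) ha0]
  nlinarith

/-- The minimiser. -/
lemma exists_min [DecidableEq (Fin n → Bool)] (D : ℕ) (G : Finset (Fin n → Bool)) {K : ℝ}
    (hK : 0 < K) :
    ∃ G' ⊆ G, ((G \ G').card : ℝ) ≤ K * Real.log (1 + SS D G) ∧
      ∀ x ∈ G', SS D G' - SS D (G'.erase x) ≤ (1 + SS D G') / K := by
  obtain ⟨G', hG', hmin⟩ := Finset.exists_min_image G.powerset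
    (fun G' => Real.log (1 + SS D G') + ((G \ G').card : ℝ) / K) ⟨G, Finset.mem_powerset_self G⟩
  rw [Finset.mem_powerset] at hG'
  refine ⟨G', hG', ?_, ?_⟩
  · have h := hmin G (Finset.mem_powerset_self G)
    rw [Finset.sdiff_self, Finset.card_empty, Nat.cast_zero, zero_div, add_zero] at h
    have h1 : 0 ≤ Real.log (1 + SS D G') := Real.log_nonneg (by have := SS_nonneg D G'; linarith)
    have h2 : ((G \ G').card : ℝ) / K ≤ Real.log (1 + SS D G) := by linarith
    rw [div_le_iff₀ hK] at h2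
    linarith
  · intro x hx
    have h := hmin (G'.erase x) (Finset.mem_powerset.2 ((Finset.erase_subset x G').trans hG'))
    have e : ((G \ (G'.erase x)).card : ℝ) = (G \ G').card + 1 := by
      have e1 : G \ (G'.erase x) = insert x (G \ G') := by
        ext z
        simp only [mem_sdiff, mem_erase, mem_insert, not_and, ne_eq]
        constructor
        · rintro ⟨h1, h2⟩
          by_cases hz : z = x
          · exact Or.inl hz
          · exact Or.inr ⟨h1, h2 hz⟩
        · rintro (rfl | ⟨h1, h2⟩)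
          · exact ⟨hG' hx, fun h => absurd rfl h⟩
          · exact ⟨h1, fun _ => h2⟩
      rw [e1, Finset.card_insert_of_notMem (by simp [hx])]
      push_cast
      ring
    rw [e, add_div] at h
    have hp : 0 < 1 + SS D G' := by have := SS_nonneg D G'; linarith
    have hq : 0 < 1 + SS D (G'.erase x) := by have := SS_nonneg D (G'.erase x); linarith
    have h3 := log_sub_ge hp hq
    have h4 : (1 + SS D G' - (1 + SS D (G'.erase x))) / (1 + SS D G') ≤ 1 / K := by linarith
    rw [div_le_iff₀ hp] at h4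
    calc SS D G' - SS D (G'.erase x) = 1 + SS D G' - (1 + SS D (G'.erase x)) := by ring
      _ ≤ 1 / K * (1 + SS D G') := h4
      _ = _ := by ring

/-- Choice of the level. -/
lemma exists_level (D : ℕ) (G N : Finset (Fin n → Bool))
    (hN : ∀ y ∈ N, ∃ x ∈ G, hammingDist x y ≤ D) (hpos : N.Nonempty) :
    ∃ k ≤ D, ∃ Λ : Finset (Fin n → Bool), Λ.Nonempty ∧ N.card ≤ (D + 1) * Λ.card ∧
      (∀ y ∈ Λ, ∀ x ∈ G, k ≤ hammingDist x y) ∧ (∀ y ∈ Λ, ∃ x ∈ G, hammingDist x y = k) := by
  classical
  set lev : ℕ → Finset (Fin n → Bool) := fun k => N.filter (fun y =>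
    (∀ x ∈ G, k ≤ hammingDist x y) ∧ ∃ x ∈ G, hammingDist x y = k) with hlev
  obtain ⟨k, hk, hmax⟩ := Finset.exists_max_image (range (D + 1)) (fun k => (lev k).card)
    ⟨0, by simp⟩
  have hcov : N ⊆ (range (D + 1)).biUnion lev := by
    intro y hy
    obtain ⟨x, hx, hxy⟩ := hN y hy
    obtain ⟨x₀, hx₀, hx₀'⟩ := Finset.exists_min_image G (fun x => hammingDist x y) ⟨x, hx⟩
    rw [Finset.mem_biUnion]
    refine ⟨hammingDist x₀ y, ?_, ?_⟩
    · have := hx₀' x hx
      simp only [mem_range]
      omega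
    · simp only [hlev, mem_filter]
      exact ⟨hy, hx₀', x₀, hx₀, rfl⟩
  have hcard : N.card ≤ (D + 1) * (lev k).card := by
    calc N.card ≤ ((range (D + 1)).biUnion lev).card := Finset.card_le_card hcov
      _ ≤ ∑ k ∈ range (D + 1), (lev k).card := Finset.card_biUnion_le
      _ ≤ ∑ _k ∈ range (D + 1), (lev k).card := Finset.sum_le_sum fun j hj => hmax j hj
      _ = (D + 1) * (lev k).card := by rw [Finset.sum_const, Finset.card_range, smul_eq_mul]
  refine ⟨k, by simpa [Nat.lt_succ_iff] using hk, lev k, ?_, hcard, ?_, ?_⟩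
  · rw [← Finset.card_pos]
    have := Finset.card_pos.2 hpos
    by_contra hcon
    have h0 : (lev k).card = 0 := by omega
    rw [h0] at hcard
    omega
  · intro y hy
    simp only [hlev, mem_filter] at hy
    exact hy.2.1
  · intro y hy
    simp only [hlev, mem_filter] at hy
    exact hy.2.2

lemma choose_mono_half {a b : ℕ} (hab : a ≤ b) (hb : 2 * b ≤ n) : n.choose a ≤ n.choose b := by
  induction b, hab using Nat.le_induction with
  | base => exact le_rfl
  | succ b hab ih =>
    exact (ih (by omega)).trans (Nat.choose_le_succ_of_lt_half_left (by omega))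

/-- The combinatorial chord inequality. -/
theorem chord_sets {D : ℕ} (hDn : D ≤ n) (A : Finset ((Fin n → Bool) × (Fin n → Bool)))
    (hA : A.Nonempty) (hdist : ∀ q ∈ A, hammingDist q.1 q.2 ≤ D) {a b : ℝ} (ha : 0 < a)
    (hb : 0 < b)
    (hrow : ∀ x, ((A.filter (fun q => q.1 = x)).card : ℝ) ≤ a)
    (hcol : ∀ y, ((A.filter (fun q => q.2 = y)).card : ℝ) ≤ b)
    (t : ℕ) (htD : 2 * (t + D) ≤ n) (l : ℝ)
    (h0 : l + Real.log (n.choose t) + Real.log a ≤ Real.log A.card)
    (h1 : l + Real.log (n.choose (t + D)) + Real.log b ≤ Real.log A.card)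
    (d : ℕ) (hd : d ≤ D) (S : Finset (Fin n → Bool))
    (hS : ∀ q ∈ A, ∀ z, hammingDist q.1 z ≤ d → z ∈ S) :
    l + Real.log (n.choose (t + d)) ≤ Real.log S.card + Real.log (36 * ((n : ℝ) + 1) ^ 4) := by
  classical
  have hApos : (0 : ℝ) < A.card := by exact_mod_cast Finset.card_pos.2 hA
  set G : Finset (Fin n → Bool) := A.image Prod.fst with hG
  set g₀ : ℝ := A.card / a with hg₀
  have hg₀pos : 0 < g₀ := by positivity
  have hn1 : (1 : ℝ) ≤ (n : ℝ) + 1 := by
    have : (0 : ℝ) ≤ n := by positivity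
    linarith
  set K : ℝ := g₀ / (6 * ((n : ℝ) + 1)) with hK
  have hKpos : 0 < K := by positivity
  obtain ⟨G', hG'G, hG'1, hG'2⟩ := exists_min D G hKpos
  have hlogG : Real.log (1 + SS D G) ≤ 3 * ((n : ℝ) + 1) := by
    have h2 := SS_le hDn G univ (fun y x _ _ => mem_univ y)
    have h3 : ((univ : Finset (Fin n → Bool)).card : ℝ) = 2 ^ n := by
      rw [Finset.card_univ, Fintype.card_fun, Fintype.card_fin, Fintype.card_bool]
      push_cast; rfl
    rw [h3] at h2
    have h4 := SS_nonneg D G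
    have h5 : 1 + SS D G ≤ 2 ^ (n + 1) * ((n : ℝ) + 1) ^ 2 := by
      have h6 : (1 : ℝ) ≤ 2 ^ n * ((n : ℝ) + 1) ^ 2 :=
        one_le_mul_of_one_le_of_one_le (one_le_pow₀ (by norm_num)) (one_le_pow₀ hn1)
      rw [pow_succ]; linarith
    have h6 := Real.log_le_log (by linarith) h5
    rw [Real.log_mul (by positivity) (by positivity), Real.log_pow, Real.log_pow] at h6
    have h7 : Real.log 2 ≤ 1 := by
      have := Real.log_two_lt_d9
      linarith
    have h8 := Real.log_le_sub_one_of_pos (show (0 : ℝ) < (n : ℝ) + 1 by linarith)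
    push_cast at h6
    have h9 : ((n : ℝ) + 1) * Real.log 2 ≤ ((n : ℝ) + 1) * 1 :=
      mul_le_mul_of_nonneg_left h7 (by linarith)
    linarith
  have hdel : ((G \ G').card : ℝ) ≤ g₀ / 2 := by
    calc ((G \ G').card : ℝ) ≤ K * Real.log (1 + SS D G) := hG'1
      _ ≤ K * (3 * ((n : ℝ) + 1)) := mul_le_mul_of_nonneg_left hlogG hKpos.le
      _ = g₀ / 2 := by rw [hK]; field_simp; norm_num
  -- the neighbourhood of `G'`
  set N : Finset (Fin n → Bool) := univ.filter (fun y => ∃ x ∈ G', hammingDist x y ≤ D) with hN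
  have hNmem : ∀ y x, x ∈ G' → hammingDist x y ≤ D → y ∈ N := by
    intro y x hx hxy
    rw [hN, mem_filter]
    exact ⟨mem_univ _, x, hx, hxy⟩
  have hcnt : (A.card : ℝ) ≤ A.card / 2 + N.card * b := by
    have e1 : A.card = (A.filter (fun q => q.1 ∈ G \ G')).card +
        (A.filter (fun q => ¬ q.1 ∈ G \ G')).card := by
      rw [Finset.card_filter_add_card_filter_not]
    have e2 : ((A.filter (fun q => q.1 ∈ G \ G')).card : ℝ) ≤ A.card / 2 := by
      have h2 : (A.filter (fun q => q.1 ∈ G \ G')).card =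
          ∑ x ∈ G \ G', (A.filter (fun q => q.1 = x)).card := by
        rw [Finset.card_eq_sum_card_fiberwise (f := Prod.fst)
          (s := A.filter (fun q => q.1 ∈ G \ G')) (t := G \ G')
          (fun q hq => Finset.mem_coe.2 (Finset.mem_filter.1 (Finset.mem_coe.1 hq)).2)]
        refine Finset.sum_congr rfl fun x hx => ?_
        congr 1
        ext q
        simp only [mem_filter]
        constructor
        · rintro ⟨⟨h3, -⟩, h4⟩; exact ⟨h3, h4⟩
        · rintro ⟨h3, h4⟩; exact ⟨⟨h3, by rw [h4]; exact hx⟩, h4⟩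
      rw [h2]
      push_cast
      calc ∑ x ∈ G \ G', ((A.filter (fun q => q.1 = x)).card : ℝ) ≤ ∑ _x ∈ G \ G', a :=
            Finset.sum_le_sum fun x _ => hrow x
        _ = (G \ G').card * a := by rw [Finset.sum_const, nsmul_eq_mul]
        _ ≤ g₀ / 2 * a := mul_le_mul_of_nonneg_right hdel ha.le
        _ = A.card / 2 := by rw [hg₀]; field_simp
    have e3 : ((A.filter (fun q => ¬ q.1 ∈ G \ G')).card : ℝ) ≤ N.card * b := by
      have h2 : (A.filter (fun q => ¬ q.1 ∈ G \ G')).card ≤
          ∑ y ∈ N, (A.filter (fun q => q.2 = y)).card := by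
        rw [Finset.card_eq_sum_card_fiberwise (f := Prod.snd) (t := N)]
        · refine Finset.sum_le_sum fun y _ => Finset.card_le_card ?_
          intro q hq
          simp only [mem_filter] at hq ⊢
          exact ⟨hq.1.1, hq.2⟩
        · intro q hq
          obtain ⟨h3, h4⟩ := Finset.mem_filter.1 (Finset.mem_coe.1 hq)
          refine Finset.mem_coe.2 (hNmem q.2 q.1 ?_ (hdist q h3))
          by_contra hcon
          exact h4 (Finset.mem_sdiff.2 ⟨Finset.mem_image_of_mem _ h3, hcon⟩)
      calc ((A.filter (fun q => ¬ q.1 ∈ G \ G')).card : ℝ)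
          ≤ ∑ y ∈ N, ((A.filter (fun q => q.2 = y)).card : ℝ) := by exact_mod_cast h2
        _ ≤ ∑ _y ∈ N, b := Finset.sum_le_sum fun y _ => hcol y
        _ = N.card * b := by rw [Finset.sum_const, nsmul_eq_mul]
    have e4 : (A.card : ℝ) = (A.filter (fun q => q.1 ∈ G \ G')).card +
        (A.filter (fun q => ¬ q.1 ∈ G \ G')).card := by exact_mod_cast e1
    linarith
  have hNcard : (A.card : ℝ) ≤ 2 * b * N.card := by linarith
  have hNpos : N.Nonempty := by
    rw [← Finset.card_pos]
    by_contra hcon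
    have h2 : N.card = 0 := by omega
    rw [h2, Nat.cast_zero, mul_zero] at hNcard
    linarith
  obtain ⟨k, hk, Λ, hΛ, hΛcard, hΛ1, hΛ2⟩ := exists_level D G' N
    (fun y hy => (Finset.mem_filter.1 hy).2) hNpos
  have hΛpos : (0 : ℝ) < Λ.card := by exact_mod_cast Finset.card_pos.2 hΛ
  have hΛ1' : (1 : ℝ) ≤ Λ.card := by exact_mod_cast Finset.card_pos.2 hΛ
  have hD1 : (D : ℝ) + 1 ≤ (n : ℝ) + 1 := by
    have : (D : ℝ) ≤ n := by exact_mod_cast hDn
    linarith
  have hNΛ : (N.card : ℝ) ≤ ((n : ℝ) + 1) * Λ.card := by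
    have h2 : (N.card : ℝ) ≤ ((D : ℝ) + 1) * Λ.card := by exact_mod_cast hΛcard
    exact h2.trans (mul_le_mul_of_nonneg_right hD1 hΛpos.le)
  -- the size of the level
  have hlogΛ : Real.log A.card ≤ Real.log b + Real.log (36 * ((n : ℝ) + 1) ^ 4) +
      Real.log Λ.card := by
    have h2 : (A.card : ℝ) ≤ b * (36 * ((n : ℝ) + 1) ^ 4) * Λ.card := by
      calc (A.card : ℝ) ≤ 2 * b * N.card := hNcard
        _ ≤ 2 * b * (((n : ℝ) + 1) * Λ.card) :=
            mul_le_mul_of_nonneg_left hNΛ (by positivity)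
        _ = b * (2 * ((n : ℝ) + 1)) * Λ.card := by ring
        _ ≤ _ := by
            refine mul_le_mul_of_nonneg_right (mul_le_mul_of_nonneg_left ?_ hb.le) hΛpos.le
            have h3 : (n : ℝ) + 1 ≤ ((n : ℝ) + 1) ^ 4 := le_self_pow₀ hn1 (by norm_num)
            linarith
    have h3 := Real.log_le_log hApos h2
    rwa [Real.log_mul (by positivity) hΛpos.ne', Real.log_mul hb.ne' (by positivity)] at h3
  rcases le_or_gt d k with hdk | hdk
  · -- the entropic part
    have hc : ∀ x ∈ G', ∑ y ∈ Λ.filter (fun y => hammingDist x y = k),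
        1 / ((G'.filter (fun x' => hammingDist x' y = k)).card : ℝ) ≤
        Λ.card * (36 * ((n : ℝ) + 1) ^ 4 / g₀) := by
      intro x hx
      have h2 : ∑ y ∈ Λ.filter (fun y => hammingDist x y = k),
          1 / (3 * ((G'.filter (fun x' => hammingDist x' y = k)).card : ℝ)) ≤
          SS D G' - SS D (G'.erase x) := by
        unfold SS
        rw [← Finset.sum_sub_distrib]
        calc ∑ y ∈ Λ.filter (fun y => hammingDist x y = k),
              1 / (3 * ((G'.filter (fun x' => hammingDist x' y = k)).card : ℝ))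
            ≤ ∑ y ∈ Λ.filter (fun y => hammingDist x y = k),
              (th D G' y - th D (G'.erase x) y) := by
              refine Finset.sum_le_sum fun y hy => ?_
              rw [Finset.mem_filter] at hy
              exact th_erase hk G' hx hy.2 (hΛ1 y hy.1)
          _ ≤ ∑ y, (th D G' y - th D (G'.erase x) y) :=
              Finset.sum_le_sum_of_subset_of_nonneg (subset_univ _) fun y _ _ => by
                have := th_erase_le D G' x y
                linarith
      have h3 := h2.trans (hG'2 x hx)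
      have h4 : 1 + SS D G' ≤ 2 * ((n : ℝ) + 1) ^ 3 * Λ.card := by
        have h5 := SS_le hDn G' N hNmem
        have h6 : SS D G' ≤ ((n : ℝ) + 1) * Λ.card * ((n : ℝ) + 1) ^ 2 :=
          h5.trans (mul_le_mul_of_nonneg_right hNΛ (by positivity))
        have h7 : (1 : ℝ) ≤ ((n : ℝ) + 1) ^ 3 * Λ.card :=
          one_le_mul_of_one_le_of_one_le (one_le_pow₀ hn1) hΛ1'
        nlinarith
      have h5 : ∑ y ∈ Λ.filter (fun y => hammingDist x y = k),
          1 / ((G'.filter (fun x' => hammingDist x' y = k)).card : ℝ) =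
          3 * ∑ y ∈ Λ.filter (fun y => hammingDist x y = k),
          1 / (3 * ((G'.filter (fun x' => hammingDist x' y = k)).card : ℝ)) := by
        rw [Finset.mul_sum]
        refine Finset.sum_congr rfl fun y _ => ?_
        rw [one_div, one_div, mul_inv, ← mul_assoc]
        norm_num
      rw [h5]
      calc 3 * ∑ y ∈ Λ.filter (fun y => hammingDist x y = k),
            1 / (3 * ((G'.filter (fun x' => hammingDist x' y = k)).card : ℝ))
          ≤ 3 * ((1 + SS D G') / K) := by linarith
        _ ≤ 3 * (2 * ((n : ℝ) + 1) ^ 3 * Λ.card / K) := by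
            refine mul_le_mul_of_nonneg_left ?_ (by norm_num)
            exact div_le_div_of_nonneg_right h4 hKpos.le
        _ = _ := by rw [hK]; field_simp; norm_num
    have hfin := ent_sets G' Λ k hΛ hΛ1 hΛ2 (36 * ((n : ℝ) + 1) ^ 4 / g₀) hc t
      (l - Real.log (36 * ((n : ℝ) + 1) ^ 4)) (by omega) ?_ ?_ S d hdk ?_
    · linarith
    · rw [Real.log_div (by positivity) hg₀pos.ne', hg₀, Real.log_div hApos.ne' ha.ne']
      linarith
    · have h2 : Real.log (n.choose (t + k)) ≤ Real.log (n.choose (t + D)) := by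
        refine Real.log_le_log (by exact_mod_cast Nat.choose_pos (by omega)) ?_
        exact_mod_cast choose_mono_half (by omega) htD
      linarith
    · intro z x hx hxz
      obtain ⟨q, hq, rfl⟩ := Finset.mem_image.1 (hG'G hx)
      exact hS q hq z hxz
  · -- the level is below `d`
    have hsub : Λ ⊆ S := by
      intro y hy
      obtain ⟨x, hx, hxy⟩ := hΛ2 y hy
      obtain ⟨q, hq, rfl⟩ := Finset.mem_image.1 (hG'G hx)
      exact hS q hq y (by omega)
    have h2 : Real.log Λ.card ≤ Real.log S.card :=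
      Real.log_le_log hΛpos (by exact_mod_cast Finset.card_le_card hsub)
    have h3 : Real.log (n.choose (t + d)) ≤ Real.log (n.choose (t + D)) := by
      refine Real.log_le_log (by exact_mod_cast Nat.choose_pos (by omega)) ?_
      exact_mod_cast choose_mono_half (by omega) htD
    linarith

end Pool.Agent.Lib.MP_f4f1a8_lc.Star
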