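import Pool.Agent.Lib.MP_f4f1a8_lc.Star.Typ2
import Pool.Agent.Lib.MP_f4f1a8_lc.Star.Min
import Pool.Agent.Lib.MP_f4f1a8_lc.Nec
import Pool.Agent.Lib.MP_f4f1a8_lc.Real

/-!
# MP_f4f1a8_lc: the star-shape law
-/

namespace Pool.Agent.Lib.MP_f4f1a8_lc.Star

open Finset SelectAux

/-- The enumerable relation between the two strings. -/
def Rel (E : ℕ → List Bool → ℕ → Prop) : SPred := fun p u v k =>
  ldist u v ≤ p.unpair.1.unpair.2 ∧ E p.unpair.2.unpair.2 (u ++ v) k ∧
    ∀ z ∈ strs p.unpair.1.unpair.1, (¬ ldist u z ≤ p.unpair.2.unpair.1.unpair.1) ∨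
      E p.unpair.2.unpair.1.unpair.2 z k

lemma PR_Rel {E : ℕ → List Bool → ℕ → Prop}
    (hE : PrimrecPred (fun a : ℕ × List Bool × ℕ => E a.1 a.2.1 a.2.2)) : PR (Rel E) := by
  have hfst : Primrec (fun p : ℕ => p.unpair.1) := Primrec.fst.comp Primrec.unpair
  have hsnd : Primrec (fun p : ℕ => p.unpair.2) := Primrec.snd.comp Primrec.unpair
  have hp : Primrec (fun a : ℕ × List Bool × List Bool × ℕ => a.1) := Primrec.fst
  have hu : Primrec (fun a : ℕ × List Bool × List Bool × ℕ => a.2.1) :=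
    Primrec.fst.comp Primrec.snd
  have hv : Primrec (fun a : ℕ × List Bool × List Bool × ℕ => a.2.2.1) :=
    Primrec.fst.comp (Primrec.snd.comp Primrec.snd)
  have hk : Primrec (fun a : ℕ × List Bool × List Bool × ℕ => a.2.2.2) :=
    Primrec.snd.comp (Primrec.snd.comp Primrec.snd)
  have hz : PrimrecRel (fun (z : List Bool) (a : ℕ × List Bool × List Bool × ℕ) =>
      (¬ ldist a.2.1 z ≤ a.1.unpair.2.unpair.1.unpair.1) ∨
      E a.1.unpair.2.unpair.1.unpair.2 z a.2.2.2) := by
    refine PrimrecPred.or (PrimrecPred.not ?_) ?_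
    · exact Primrec.nat_le.comp (primrec_ldist.comp (hu.comp Primrec.snd) Primrec.fst)
        (hfst.comp (hfst.comp (hsnd.comp (hp.comp Primrec.snd))))
    · exact hE.comp (Primrec.pair (hsnd.comp (hfst.comp (hsnd.comp (hp.comp Primrec.snd))))
        (Primrec.pair Primrec.fst (hk.comp Primrec.snd)))
  unfold PR Rel
  refine PrimrecPred.and ?_ (PrimrecPred.and ?_ ?_)
  · exact Primrec.nat_le.comp (primrec_ldist.comp hu hv) (hsnd.comp (hfst.comp hp))
  · exact hE.comp (Primrec.pair (hsnd.comp (hsnd.comp hp))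
      (Primrec.pair (Primrec.list_append.comp hu hv) hk))
  · exact hz.forall_mem_list.comp (primrec_strs.comp (hfst.comp (hfst.comp hp))) Primrec.id

/-- Few pairs have small complexity. -/
lemma pairs_card {U : List Bool →. List Bool} (hU : Optimal U) {n : ℕ}
    (A : Finset ((Fin n → Bool) × (Fin n → Bool))) (q : ℕ)
    (h : ∀ r ∈ A, C U (List.ofFn r.1 ++ List.ofFn r.2) ≤ q) : A.card < 2 ^ (q + 1) := by
  classical
  have hinj : Function.Injective (fun r : (Fin n → Bool) × (Fin n → Bool) =>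
      Fin.append r.1 r.2) := by
    intro r r' hr
    have h1 : List.ofFn (Fin.append r.1 r.2) = List.ofFn (Fin.append r'.1 r'.2) :=
      congrArg List.ofFn hr
    rw [List.ofFn_fin_append, List.ofFn_fin_append] at h1
    obtain ⟨h2, h3⟩ := List.append_inj h1 (by simp)
    exact Prod.ext (List.ofFn_injective h2) (List.ofFn_injective h3)
  rw [← Finset.card_image_of_injective A hinj]
  refine card_lt_of_C hU _ _ fun z hz => ?_
  obtain ⟨r, hr, rfl⟩ := Finset.mem_image.1 hz
  rw [List.ofFn_fin_append]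
  exact Nat.lt_succ_of_le (h r hr)

/-- Typization of a pair of strings, with the ball of the first string. -/
lemma typ_ball {U : List Bool →. List Bool} (hU : Optimal U) :
    ∃ c : ℕ, ∀ (n D d m s : ℕ) (x y : Fin n → Bool), n < 2 ^ s → D < 2 ^ s → d < 2 ^ s →
      m < 2 ^ s → C U (List.ofFn x ++ List.ofFn y) < 2 ^ s → hammingDist x y ≤ D →
      (∀ z, hammingDist x z ≤ d → C U (List.ofFn z) ≤ m) →
      ∃ (A : Finset ((Fin n → Bool) × (Fin n → Bool))) (a b : ℕ), A.Nonempty ∧
        (∀ r ∈ A, hammingDist r.1 r.2 ≤ D) ∧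
        (∀ r ∈ A, ∀ z, hammingDist r.1 z ≤ d → C U (List.ofFn z) ≤ m) ∧
        (∀ x', (A.filter (fun r => r.1 = x')).card ≤ 2 ^ a) ∧
        (∀ y', (A.filter (fun r => r.2 = y')).card ≤ 2 ^ b) ∧
        C U (List.ofFn x) + a ≤ Nat.clog 2 A.card + 96 * s + c ∧
        C U (List.ofFn y) + b ≤ Nat.clog 2 A.card + 96 * s + c := by
  classical
  obtain ⟨E, hEp, hEmono, hE⟩ := exists_stage hU
  have hmono : ∀ p u v k k', k ≤ k' → Rel E p u v k → Rel E p u v k' := by
    rintro p u v k k' hk ⟨h1, h2, h3⟩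
    refine ⟨h1, hEmono _ _ _ _ hk h2, fun z hz => ?_⟩
    rcases h3 z hz with h | h
    · exact Or.inl h
    · exact Or.inr (hEmono _ _ _ _ hk h)
  have hn : Primrec (fun p : ℕ => p.unpair.1.unpair.1) :=
    Primrec.fst.comp (Primrec.unpair.comp (Primrec.fst.comp Primrec.unpair))
  obtain ⟨c, hc⟩ := typ hU (PR_Rel hEp) hn hmono
  refine ⟨2 * c, ?_⟩
  intro n D d m s x y hns hDs hds hms hqs hxy hball
  set q := C U (List.ofFn x ++ List.ofFn y) with hq
  set p := Nat.pair (Nat.pair n D) (Nat.pair (Nat.pair d m) q) with hp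
  have hps : p < 2 ^ (8 * s) := by
    have h1 := pair_lt_two_pow hns hDs
    have h2 := pair_lt_two_pow hds hms
    have h3 : q < 2 ^ (2 * s) :=
      lt_of_lt_of_le hqs (Nat.pow_le_pow_right (by norm_num) (by omega))
    have h4 := pair_lt_two_pow h2 h3
    have h5 : Nat.pair n D < 2 ^ (2 * (2 * s)) :=
      lt_of_lt_of_le h1 (Nat.pow_le_pow_right (by norm_num) (by omega))
    have h6 := pair_lt_two_pow h5 h4
    have e : 2 * (2 * (2 * s)) = 8 * s := by ring
    rwa [e] at h6
  have hR : ∀ u v k, Rel E p u v k ↔ ldist u v ≤ D ∧ E q (u ++ v) k ∧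
      ∀ z ∈ strs n, (¬ ldist u z ≤ d) ∨ E m z k := by
    intro u v k
    simp only [Rel, hp, Nat.unpair_pair]
  have hlen : ∀ x : Fin n → Bool, List.ofFn x ∈ strs n := fun x =>
    mem_strs.2 (List.length_ofFn)
  have hsurj : ∀ z ∈ strs n, ∃ x : Fin n → Bool, z = List.ofFn x := by
    intro z hz
    have hz' := mem_strs.1 hz
    subst hz'
    exact ⟨fun i => z.get i, (List.ofFn_get z).symm⟩
  have hRf : ∀ r : (Fin n → Bool) × (Fin n → Bool),
      (∃ k, Rel E p (List.ofFn r.1) (List.ofFn r.2) k) → hammingDist r.1 r.2 ≤ D ∧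
      C U (List.ofFn r.1 ++ List.ofFn r.2) ≤ q ∧
      ∀ z, hammingDist r.1 z ≤ d → C U (List.ofFn z) ≤ m := by
    rintro r ⟨k, hk⟩
    obtain ⟨h1, h2, h3⟩ := (hR _ _ _).1 hk
    rw [ldist_ofFn] at h1
    refine ⟨h1, (hE _ _).2 ⟨k, h2⟩, fun z hz => ?_⟩
    rcases h3 (List.ofFn z) (hlen z) with h | h
    · exact absurd (by rw [ldist_ofFn]; exact hz) h
    · exact (hE _ _).2 ⟨k, h⟩
  have hxyR : ∃ k, Rel E p (List.ofFn x) (List.ofFn y) k := by
    obtain ⟨k₀, hk₀⟩ := (hE q (List.ofFn x ++ List.ofFn y)).1 le_rfl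
    have h1 : ∀ z ∈ ball x d, ∃ k, E m (List.ofFn z) k := fun z hz =>
      (hE m (List.ofFn z)).1 (hball z (mem_ball.1 hz))
    choose! κ hκ using h1
    refine ⟨max k₀ ((ball x d).sup κ), (hR _ _ _).2 ⟨?_, ?_, ?_⟩⟩
    · rw [ldist_ofFn]; exact hxy
    · exact hEmono _ _ _ _ (le_max_left _ _) hk₀
    · intro z hz
      obtain ⟨z₀, rfl⟩ := hsurj z hz
      by_cases hd : ldist (List.ofFn x) (List.ofFn z₀) ≤ d
      · right
        rw [ldist_ofFn] at hd
        have hzb : z₀ ∈ ball x d := mem_ball.2 hd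
        exact hEmono _ _ _ _ ((Finset.le_sup (f := κ) hzb).trans (le_max_right _ _)) (hκ z₀ hzb)
      · left; exact hd
  obtain ⟨A, a, b, hA, hA1, hA2, hA3, hA4, hA5, hA6⟩ := hc n p (8 * s) q x y
    (by simp only [hp, Nat.unpair_pair]) hps
    (lt_of_lt_of_le hns (Nat.pow_le_pow_right (by norm_num) (by omega))) hxyR
    (fun A hA => pairs_card hU A q fun r hr => (hRf r (hA r hr)).2.1)
  refine ⟨A, a, b, hA, fun r hr => (hRf r (hA1 r hr)).1, fun r hr => (hRf r (hA1 r hr)).2.2,
    hA2, hA3, ?_, ?_⟩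
  · omega
  · omega

/-- The star-shape law: the graph of `M U x` lies above each chord which starts below
`M U x 0`. -/
theorem star_shape {U : List Bool →. List Bool} (hU : Optimal U) :
    ∃ c : ℝ, ∀ (n : ℕ) (x : Fin n → Bool) (d D t : ℕ) (l : ℝ), 2 ≤ n → d ≤ D → D ≤ n →
      l + L n t ≤ M U x 0 → l + L n (t + D) ≤ M U x D →
      l + L n (t + d) ≤ M U x d + c * Real.log n := by
  classical
  obtain ⟨c₀, hc₀⟩ := C_le_length hU
  obtain ⟨c₁, hc₁⟩ := descr_nbr hU
  obtain ⟨c₂, hc₂⟩ := typ_ball hU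
  obtain ⟨cs, hcs0, hcs⟩ := NL_exists_s c₀
  refine ⟨100 * cs + 300 + 2 * c₀ + 2 * c₁ + 2 * c₂, ?_⟩
  intro n x d D t l hn hdD hDn h0 h1
  obtain ⟨s, hs, hs'⟩ := hcs n hn
  have hl := one_le_log hn
  have hl0 : 0 ≤ Real.log n := by linarith
  have hlogn := logb_le hn
  have hlogb0 : 0 ≤ Real.logb 2 ((n : ℝ) + 1) :=
    Real.logb_nonneg (by norm_num) (by have : (0 : ℝ) ≤ n := by positivity
                                       linarith)
  have hMle : ∀ d, M U x d ≤ n + c₀ := by
    intro d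
    apply M_le
    intro y _
    simpa using hc₀ (List.ofFn y)
  have hc0l : (c₀ : ℝ) ≤ 2 * c₀ * Real.log n := by
    have : (0 : ℝ) ≤ c₀ := by positivity
    nlinarith
  have hc1l : (c₁ : ℝ) ≤ 2 * c₁ * Real.log n := by
    have : (0 : ℝ) ≤ c₁ := by positivity
    nlinarith
  have hc2l : (c₂ : ℝ) ≤ 2 * c₂ * Real.log n := by
    have : (0 : ℝ) ≤ c₂ := by positivity
    nlinarith
  have hc0' : 0 ≤ 2 * (c₀ : ℝ) * Real.log n := by positivity
  have hc1' : 0 ≤ 2 * (c₁ : ℝ) * Real.log n := by positivity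
  have hc2' : 0 ≤ 2 * (c₂ : ℝ) * Real.log n := by positivity
  have hcs' : 0 ≤ cs * Real.log n := by positivity
  have hexp : (100 * cs + 300 + 2 * c₀ + 2 * c₁ + 2 * c₂) * Real.log n =
      100 * (cs * Real.log n) + 300 * Real.log n + 2 * c₀ * Real.log n +
        2 * c₁ * Real.log n + 2 * c₂ * Real.log n := by ring
  -- Harper's law from radius zero
  have hharper : ∀ ρ : ℕ, L n ρ ≤ M U x 0 →
      L n (ρ + d) ≤ M U x d + 2 + Real.logb 2 (n + 1) + 8 * s + c₁ := by
    intro ρ hρ
    have := nec_lower hU hc₁ (s := s) (Nat.zero_le d) x (by omega) (by omega)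
      (lt_of_le_of_lt (hMle d) hs) ρ hρ
    simpa using this
  by_cases hhalf : 2 * (t + D) ≤ n
  · -- the main case
    obtain ⟨y, hxy, hy⟩ := exists_eq_M U x D
    obtain ⟨x', hx', hx0⟩ := exists_eq_M U x 0
    have hxx : x = x' := hammingDist_eq_zero.1 (Nat.le_zero.1 hx')
    subst hxx
    have hq : C U (List.ofFn x ++ List.ofFn y) < 2 ^ (s + 1) := by
      have h2 := hc₀ (List.ofFn x ++ List.ofFn y)
      rw [List.length_append, List.length_ofFn, List.length_ofFn] at h2
      rw [pow_succ]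
      omega
    have hss : 2 ^ s ≤ 2 ^ (s + 1) := Nat.pow_le_pow_right (by norm_num) (by omega)
    have hMd := hMle d
    obtain ⟨A, a, b, hA, hA1, hA2, hA3, hA4, hA5, hA6⟩ := hc₂ n D d (M U x d) (s + 1) x y
      (by omega) (by omega) (by omega) (by omega) hq hxy (fun z hz => le_M hz)
    set S : Finset (Fin n → Bool) := univ.filter (fun z => C U (List.ofFn z) ≤ M U x d)
      with hS
    have hScard : S.card < 2 ^ (M U x d + 1) :=
      card_lt_of_C hU S _ fun z hz => Nat.lt_succ_of_le (Finset.mem_filter.1 hz).2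
    have hSpos : 0 < S.card :=
      Finset.card_pos.2 ⟨x, Finset.mem_filter.2 ⟨mem_univ _, le_M (by simp)⟩⟩
    have hApos : (0 : ℝ) < A.card := by exact_mod_cast Finset.card_pos.2 hA
    have hAclog := NL_clog_le (Finset.card_pos.2 hA)
    have hl2 : 0 < Real.log 2 := Real.log_pos (by norm_num)
    set e : ℝ := 96 * (s + 1) + c₂ + 1 with he
    have hA5' : (M U x 0 : ℝ) + a ≤ Real.logb 2 A.card + e := by
      have h2 : ((C U (List.ofFn x) + a : ℕ) : ℝ) ≤
          ((Nat.clog 2 A.card + 96 * (s + 1) + c₂ : ℕ) : ℝ) := by exact_mod_cast hA5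
      rw [hx0] at h2
      push_cast at h2
      linarith
    have hA6' : (M U x D : ℝ) + b ≤ Real.logb 2 A.card + e := by
      have h2 : ((C U (List.ofFn y) + b : ℕ) : ℝ) ≤
          ((Nat.clog 2 A.card + 96 * (s + 1) + c₂ : ℕ) : ℝ) := by exact_mod_cast hA6
      rw [hy] at h2
      push_cast at h2
      linarith
    have hcv : ∀ r, r ≤ n → Real.logb 2 (n.choose r) ≤ L n r := by
      intro r hr
      refine Real.logb_le_logb_of_le (by norm_num)
        (by exact_mod_cast Nat.choose_pos hr) ?_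
      exact_mod_cast choose_le_vol n r
    have hlog : ∀ z : ℝ, Real.log z = Real.logb 2 z * Real.log 2 := by
      intro z
      rw [Real.logb]
      field_simp
    have hmain := chord_sets hDn A hA hA1 (a := (2 : ℝ) ^ a) (b := (2 : ℝ) ^ b)
      (by positivity) (by positivity)
      (fun z => by exact_mod_cast hA3 z) (fun z => by exact_mod_cast hA4 z) t hhalf
      ((l - e) * Real.log 2) ?_ ?_ d hdD S ?_
    · have h2 := hlog (n.choose (t + d))
      have h3 := hlog S.card
      have h4 := NL_logb_lt hSpos hScard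
      have h5 : Real.log (36 * ((n : ℝ) + 1) ^ 4) ≤
          (6 + 4 * Real.logb 2 ((n : ℝ) + 1)) * Real.log 2 := by
        rw [Real.log_mul (by norm_num) (by positivity), Real.log_pow, hlog ((n : ℝ) + 1)]
        have h6 : Real.log 36 ≤ 6 * Real.log 2 := by
          have : (6 : ℝ) * Real.log 2 = Real.log (2 ^ 6) := by rw [Real.log_pow]; norm_num
          rw [this]
          exact Real.log_le_log (by norm_num) (by norm_num)
        push_cast
        linarith
      have h6 : (l - e + Real.logb 2 (n.choose (t + d))) * Real.log 2 ≤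
          (M U x d + 1 + (6 + 4 * Real.logb 2 ((n : ℝ) + 1))) * Real.log 2 := by
        have h7 : Real.logb 2 (S.card : ℝ) * Real.log 2 ≤ (M U x d + 1) * Real.log 2 :=
          mul_le_mul_of_nonneg_right h4 hl2.le
        rw [h2, h3] at hmain
        calc (l - e + Real.logb 2 (n.choose (t + d))) * Real.log 2 =
              (l - e) * Real.log 2 + Real.logb 2 (n.choose (t + d)) * Real.log 2 := by ring
          _ ≤ _ := by linarith
      have h7 := le_of_mul_le_mul_right h6 hl2
      have h8 : L n (t + d) ≤ Real.logb 2 ((n : ℝ) + 1) + Real.logb 2 (n.choose (t + d)) := by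
        rw [← Real.logb_mul (by positivity)
          (by exact_mod_cast (Nat.choose_pos (show t + d ≤ n by omega)).ne')]
        refine Real.logb_le_logb_of_le (by norm_num) (NL_pos n _) ?_
        exact_mod_cast vol_le_choose (n := n) (r := t + d) (by omega)
      rw [hexp]
      linarith
    · rw [hlog (n.choose t), hlog (A.card), Real.log_pow, ← add_mul, ← add_mul]
      refine mul_le_mul_of_nonneg_right ?_ hl2.le
      have := hcv t (by omega)
      linarith
    · rw [hlog (n.choose (t + D)), hlog (A.card), Real.log_pow, ← add_mul, ← add_mul]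
      refine mul_le_mul_of_nonneg_right ?_ hl2.le
      have := hcv (t + D) (by omega)
      linarith
    · intro r hr z hz
      exact Finset.mem_filter.2 ⟨mem_univ _, hA2 r hr z hz⟩
  · -- the chord ends above the middle
    have hlle : l ≤ c₀ + 1 := by
      have h2 := real_half n (r := t + D) (by omega)
      have h3 : (M U x D : ℝ) ≤ n + c₀ := by exact_mod_cast hMle D
      linarith
    rcases le_or_gt (L n t) (M U x 0) with ht | ht
    · have := hharper t ht
      rw [hexp]
      linarith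
    · -- the chord starts at a radius which is too large
      set ρ := Nat.findGreatest (fun r => L n r ≤ M U x 0) t with hρ
      have hρ1 : L n ρ ≤ M U x 0 := by
        have := Nat.findGreatest_spec (P := fun r => L n r ≤ (M U x 0 : ℝ)) (m := 0) (n := t)
          (Nat.zero_le _) (by rw [L_zero]; positivity)
        exact this
      have hρt : ρ < t := by
        refine lt_of_le_of_ne (Nat.findGreatest_le t) fun h => ?_
        rw [h] at hρ1
        linarith
      have hρ2 : (M U x 0 : ℝ) < L n (ρ + 1) := by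
        by_contra hcon
        push Not at hcon
        have := Nat.le_findGreatest (P := fun r => L n r ≤ (M U x 0 : ℝ)) (m := ρ + 1) (n := t)
          (by omega) hcon
        omega
      have h2 := hharper ρ hρ1
      have h3 := L_logconcave n (show ρ + 1 ≤ t by omega) d
      have h4 := L_succ n (ρ + d)
      have h5 : L n (ρ + 1 + d) = L n (ρ + d + 1) := by congr 1; ring
      rw [hexp]
      linarith

end Pool.Agent.Lib.MP_f4f1a8_lc.Star
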