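import Mathlib

/-!
# MP_f4f1a8_lc, star-shape law: abstract entropy inequalities
-/

namespace Pool.Agent.Lib.MP_f4f1a8_lc.Star

open Finset

/-- Weighted geometric means are at most weighted arithmetic means. -/
lemma exp_sum_log_le {ι : Type*} (s : Finset ι) (w a : ι → ℝ) (hw : ∀ i ∈ s, 0 ≤ w i)
    (h1 : ∑ i ∈ s, w i = 1) (ha : ∀ i ∈ s, w i ≠ 0 → 0 < a i) :
    Real.exp (∑ i ∈ s, w i * Real.log (a i)) ≤ ∑ i ∈ s, w i * a i := by
  have h := convexOn_exp.map_sum_le (t := s) (w := w) (p := fun i => Real.log (a i)) hw h1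
    (fun i _ => Set.mem_univ _)
  simp only [smul_eq_mul] at h
  refine h.trans (le_of_eq ?_)
  refine Finset.sum_congr rfl fun i hi => ?_
  by_cases h0 : w i = 0
  · simp [h0]
  · rw [Real.exp_log (ha i hi h0)]

/-- The number of values which a row takes bounds the exponential of the conditional
entropy. -/
lemma cond_le {ι κ : Type*} [Fintype ι] [Fintype κ] (W : ι → κ → ℝ) (P : ι → ℝ)
    (hW : ∀ z i, 0 ≤ W z i) (hP : ∀ z, P z = ∑ i, W z i) (h1 : ∑ z, P z = 1) :
    Real.exp (∑ z, ∑ i, W z i * (Real.log (P z) - Real.log (W z i))) ≤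
      ∑ z, P z * ((univ.filter (fun i => W z i ≠ 0)).card : ℝ) := by
  have hpos : ∀ z i, W z i ≠ 0 → 0 < P z := by
    intro z i h
    have h2 : W z i ≤ P z := by
      rw [hP]
      exact Finset.single_le_sum (f := fun i => W z i) (fun j _ => hW z j) (mem_univ i)
    have := lt_of_le_of_ne (hW z i) (Ne.symm h)
    linarith
  have h2 := exp_sum_log_le (univ ×ˢ univ : Finset (ι × κ)) (fun q => W q.1 q.2)
    (fun q => P q.1 / W q.1 q.2) (fun q _ => hW q.1 q.2) (by
      rw [Finset.sum_product]
      simp only
      rw [← h1]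
      exact Finset.sum_congr rfl fun z _ => (hP z).symm) (fun q _ hq =>
        div_pos (hpos _ _ hq) (lt_of_le_of_ne (hW _ _) (Ne.symm hq)))
  rw [Finset.sum_product, Finset.sum_product] at h2
  have e1 : ∑ z, ∑ i, W z i * Real.log (P z / W z i) =
      ∑ z, ∑ i, W z i * (Real.log (P z) - Real.log (W z i)) := by
    refine Finset.sum_congr rfl fun z _ => Finset.sum_congr rfl fun i _ => ?_
    by_cases h : W z i = 0
    · simp [h]
    · rw [Real.log_div (hpos z i h).ne' h]
  have e2 : ∑ z, ∑ i, W z i * (P z / W z i) =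
      ∑ z, P z * ((univ.filter (fun i => W z i ≠ 0)).card : ℝ) := by
    refine Finset.sum_congr rfl fun z _ => ?_
    rw [Finset.card_filter, Nat.cast_sum, Finset.mul_sum]
    refine Finset.sum_congr rfl fun i _ => ?_
    by_cases h : W z i = 0
    · simp [h]
    · simp only [ne_eq, h, not_false_eq_true, if_true, Nat.cast_one, mul_one]
      field_simp
  simp only at h2
  rw [e1, e2] at h2
  exact h2

/-- Two exchangeable distinct steps. -/
lemma triple {ι κ : Type*} [Fintype ι] [Fintype κ] (T : ι → κ → κ → ℝ) (W : ι → κ → ℝ)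
    (P : ι → ℝ) (hT : ∀ z i j, 0 ≤ T z i j) (hs : ∀ z i j, T z i j = T z j i)
    (hd : ∀ z i, T z i i = 0) (hW : ∀ z i, W z i = ∑ j, T z i j)
    (hP : ∀ z, P z = ∑ i, W z i) (h1 : ∑ z, P z = 1) :
    Real.exp (∑ z, ∑ i, ∑ j, T z i j * (Real.log (W z i) - Real.log (T z i j))) + 1 ≤
      Real.exp (∑ z, ∑ i, W z i * (Real.log (P z) - Real.log (W z i))) := by
  classical
  have hW0 : ∀ z i, 0 ≤ W z i := fun z i => by
    rw [hW]; exact Finset.sum_nonneg fun j _ => hT z i j
  have hTW : ∀ z i j, T z i j ≤ W z i := fun z i j => by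
    rw [hW]; exact Finset.single_le_sum (f := fun j => T z i j) (fun j _ => hT z i j) (mem_univ j)
  have hWP : ∀ z i j, i ≠ j → W z i + W z j ≤ P z := by
    intro z i j hij
    classical
    rw [hP, ← Finset.sum_pair (f := fun i => W z i) hij]
    exact Finset.sum_le_sum_of_subset_of_nonneg (subset_univ _) fun k _ _ => hW0 z k
  have hpos : ∀ z i j, T z i j ≠ 0 → 0 < T z i j := fun z i j h =>
    lt_of_le_of_ne (hT z i j) (Ne.symm h)
  have hWPlt : ∀ z i, W z i ≠ 0 → W z i < P z := by
    intro z i h
    have h2 : ∃ j, T z i j ≠ 0 := by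
      by_contra hcon
      push Not at hcon
      exact h (by rw [hW]; exact Finset.sum_eq_zero fun j _ => hcon j)
    obtain ⟨j, hj⟩ := h2
    have hij : i ≠ j := by
      rintro rfl; exact hj (hd z i)
    have h3 := hWP z i j hij
    have h4 := hTW z j i
    rw [hs z j i] at h4
    have := hpos z i j hj
    linarith
  have hPpos : ∀ z i, W z i ≠ 0 → 0 < P z := fun z i h =>
    lt_of_le_of_lt (hW0 z i) (hWPlt z i h)
  have hcol : ∀ z j, ∑ i, T z i j = W z j := fun z j => by
    rw [hW]; exact Finset.sum_congr rfl fun i _ => hs z i j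
  have hsumW : ∑ z, ∑ i, W z i = 1 := by
    rw [← h1]; exact Finset.sum_congr rfl fun z _ => (hP z).symm
  -- Gibbs inequality
  have hG : ∑ z, ∑ i, ∑ j, T z i j * (Real.log (W z i) - Real.log (T z i j) +
      Real.log (W z j) - Real.log (P z - W z i)) ≤ 0 := by
    have h2 : ∀ z i j, T z i j * (Real.log (W z i) - Real.log (T z i j) +
        Real.log (W z j) - Real.log (P z - W z i)) ≤
        (if i = j then 0 else W z i * W z j / (P z - W z i)) - T z i j := by
      intro z i j
      by_cases h : T z i j = 0
      · rw [h, zero_mul, sub_zero]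
        split_ifs with hij
        · exact le_rfl
        · refine div_nonneg (mul_nonneg (hW0 _ _) (hW0 _ _)) ?_
          have := hWP z i j hij
          have := hW0 z j
          linarith
      · have hij : i ≠ j := by
          rintro rfl; exact h (hd z i)
        have hTp := hpos z i j h
        have hWi : 0 < W z i := lt_of_lt_of_le hTp (hTW z i j)
        have hWj : 0 < W z j := by
          have := hTW z j i
          rw [hs z j i] at this
          linarith
        have hPW : 0 < P z - W z i := by
          have := hWP z i j hij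
          linarith
        rw [if_neg hij]
        have e : Real.log (W z i) - Real.log (T z i j) +
            Real.log (W z j) - Real.log (P z - W z i) =
            Real.log (W z i * W z j / (T z i j * (P z - W z i))) := by
          rw [Real.log_div (by positivity) (by positivity), Real.log_mul hWi.ne' hWj.ne',
            Real.log_mul hTp.ne' hPW.ne']
          ring
        rw [e]
        have h3 := Real.log_le_sub_one_of_pos
          (show 0 < W z i * W z j / (T z i j * (P z - W z i)) by positivity)
        calc T z i j * Real.log (W z i * W z j / (T z i j * (P z - W z i)))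
            ≤ T z i j * (W z i * W z j / (T z i j * (P z - W z i)) - 1) :=
              mul_le_mul_of_nonneg_left h3 hTp.le
          _ = W z i * W z j / (P z - W z i) - T z i j := by
              field_simp
    have h3 : ∀ z i, ∑ j, ((if i = j then 0 else W z i * W z j / (P z - W z i)) - T z i j) ≤
        0 := by
      intro z i
      rw [Finset.sum_sub_distrib, ← hW, sub_nonpos]
      by_cases h : W z i = 0
      · simp [h]
      · have hlt := hWPlt z i h
        have h4 : ∀ j, (if i = j then 0 else W z i * W z j / (P z - W z i)) =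
            W z i / (P z - W z i) * (W z j - if i = j then W z i else 0) := by
          intro j
          split_ifs with hij
          · rw [hij]; ring
          · ring
        simp_rw [h4]
        rw [← Finset.mul_sum, Finset.sum_sub_distrib, ← hP, Finset.sum_ite_eq,
          if_pos (mem_univ _), div_mul_cancel₀ _ (by linarith)]
    calc ∑ z, ∑ i, ∑ j, T z i j * (Real.log (W z i) - Real.log (T z i j) +
          Real.log (W z j) - Real.log (P z - W z i))
        ≤ ∑ z, ∑ i, ∑ j, ((if i = j then 0 else W z i * W z j / (P z - W z i)) - T z i j) :=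
          Finset.sum_le_sum fun z _ => Finset.sum_le_sum fun i _ => Finset.sum_le_sum
            fun j _ => h2 z i j
      _ ≤ 0 := Finset.sum_nonpos fun z _ => Finset.sum_nonpos fun i _ => h3 z i
  set Φ := ∑ z, ∑ i, W z i * (Real.log (P z) - Real.log (W z i)) with hΦ
  set Φ' := ∑ z, ∑ i, ∑ j, T z i j * (Real.log (W z i) - Real.log (T z i j)) with hΦ'
  have hsplit : ∑ z, ∑ i, ∑ j, T z i j * (Real.log (W z i) - Real.log (T z i j) +
      Real.log (W z j) - Real.log (P z - W z i)) =
      Φ' - ∑ z, ∑ i, W z i * (Real.log (P z - W z i) - Real.log (W z i)) := by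
    rw [hΦ', ← Finset.sum_sub_distrib]
    refine Finset.sum_congr rfl fun z _ => ?_
    have e1 : ∑ i, ∑ j, T z i j * Real.log (W z j) = ∑ i, W z i * Real.log (W z i) := by
      rw [Finset.sum_comm]
      refine Finset.sum_congr rfl fun j _ => ?_
      rw [← Finset.sum_mul, hcol]
    have e2 : ∑ i, ∑ j, T z i j * Real.log (P z - W z i) =
        ∑ i, W z i * Real.log (P z - W z i) := by
      refine Finset.sum_congr rfl fun i _ => ?_
      rw [← Finset.sum_mul, ← hW]
    have e3 : ∑ i, ∑ j, T z i j * (Real.log (W z i) - Real.log (T z i j) +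
        Real.log (W z j) - Real.log (P z - W z i)) =
        ∑ i, ∑ j, T z i j * (Real.log (W z i) - Real.log (T z i j)) +
        ∑ i, ∑ j, T z i j * Real.log (W z j) -
        ∑ i, ∑ j, T z i j * Real.log (P z - W z i) := by
      rw [← Finset.sum_add_distrib, ← Finset.sum_sub_distrib]
      refine Finset.sum_congr rfl fun i _ => ?_
      rw [← Finset.sum_add_distrib, ← Finset.sum_sub_distrib]
      exact Finset.sum_congr rfl fun j _ => by ring
    rw [e3, e1, e2]
    have e4 : ∑ i, W z i * (Real.log (P z - W z i) - Real.log (W z i)) =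
        ∑ i, W z i * Real.log (P z - W z i) - ∑ i, W z i * Real.log (W z i) := by
      rw [← Finset.sum_sub_distrib]
      exact Finset.sum_congr rfl fun i _ => by ring
    rw [e4]
    ring
  have hdiff : Φ' - Φ ≤ ∑ z, ∑ i, W z i * Real.log ((P z - W z i) / P z) := by
    have e1 : ∑ z, ∑ i, W z i * Real.log ((P z - W z i) / P z) =
        (∑ z, ∑ i, W z i * (Real.log (P z - W z i) - Real.log (W z i))) - Φ := by
      rw [hΦ, ← Finset.sum_sub_distrib]
      refine Finset.sum_congr rfl fun z _ => ?_
      rw [← Finset.sum_sub_distrib]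
      refine Finset.sum_congr rfl fun i _ => ?_
      by_cases h : W z i = 0
      · simp [h]
      · rw [Real.log_div (by have := hWPlt z i h; linarith) (hPpos z i h).ne']
        ring
    rw [hsplit] at hG
    rw [e1]
    linarith
  have hneg : -Φ = ∑ z, ∑ i, W z i * Real.log (W z i / P z) := by
    rw [hΦ, ← Finset.sum_neg_distrib]
    refine Finset.sum_congr rfl fun z _ => ?_
    rw [← Finset.sum_neg_distrib]
    refine Finset.sum_congr rfl fun i _ => ?_
    by_cases h : W z i = 0
    · simp [h]
    · rw [Real.log_div h (hPpos z i h).ne']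
      ring
  have hj : ∀ a : ι → κ → ℝ, (∀ z i, W z i ≠ 0 → 0 < a z i) →
      Real.exp (∑ z, ∑ i, W z i * Real.log (a z i)) ≤ ∑ z, ∑ i, W z i * a z i := by
    intro a ha
    have h2 := exp_sum_log_le (univ ×ˢ univ : Finset (ι × κ)) (fun q => W q.1 q.2)
      (fun q => a q.1 q.2) (fun q _ => hW0 q.1 q.2) (by
        rw [Finset.sum_product]; exact hsumW) (fun q _ hq => ha _ _ hq)
    rw [Finset.sum_product, Finset.sum_product] at h2
    exact h2
  have hA := hj (fun z i => (P z - W z i) / P z) (fun z i h =>
    div_pos (by have := hWPlt z i h; linarith) (hPpos z i h))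
  have hB := hj (fun z i => W z i / P z) (fun z i h =>
    div_pos (lt_of_le_of_ne (hW0 z i) (Ne.symm h)) (hPpos z i h))
  have hsum : ∑ z, ∑ i, W z i * ((P z - W z i) / P z) + ∑ z, ∑ i, W z i * (W z i / P z) =
      1 := by
    rw [← hsumW, ← Finset.sum_add_distrib]
    refine Finset.sum_congr rfl fun z _ => ?_
    rw [← Finset.sum_add_distrib]
    refine Finset.sum_congr rfl fun i _ => ?_
    by_cases h : W z i = 0
    · simp [h]
    · have := hPpos z i h
      field_simp
      ring
  rw [← hneg] at hB
  have h5 : Real.exp (Φ' - Φ) ≤ Real.exp (∑ z, ∑ i, W z i * Real.log ((P z - W z i) / P z)) :=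
    Real.exp_le_exp.2 hdiff
  have h6 : Real.exp (Φ' - Φ) + Real.exp (-Φ) ≤ 1 := by linarith
  have h7 := mul_le_mul_of_nonneg_right h6 (Real.exp_pos Φ).le
  rw [add_mul, ← Real.exp_add, ← Real.exp_add, one_mul] at h7
  simpa using h7

end Pool.Agent.Lib.MP_f4f1a8_lc.Star
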