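import Pool.Agent.Lib.MP_f4f1a8_lc.Star.Final

/-!
# MP_f4f1a8_lc: the star-shape law is sharp
-/

namespace Pool.Agent.Lib.MP_f4f1a8_lc.Star

open Finset SelectAux

/-- An admissible pair lies on a chord. -/
lemma core0 {n d₁ d₂ m₁ m₂ : ℕ} (h12 : d₁ ≤ d₂) {s K : ℝ} (hs : 0 ≤ s)
    (hK : ∀ r, L n (r + 1) ≤ L n r + K) (hA : Admissible n d₁ d₂ m₁ m₂ s) :
    ∃ l ≤ n, ∃ t ≤ n,
      |(l : ℝ) + L n (t + d₁) - m₁| ≤ 7 * s + 1 + K ∧
      |(l : ℝ) + L n (t + d₂) - m₂| ≤ 7 * s + 1 + K := by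
  obtain ⟨a1, a2, a3, a4, a5⟩ := hA
  have hK0 : 0 ≤ K := by
    have := hK n
    rw [L_eq (Nat.le_succ n), L_eq le_rfl] at this
    linarith
  set r := d₂ - d₁ with hr
  have hd2 : d₂ = d₁ + r := by omega
  -- the greatest radius with `L n ρ ≤ m₁`
  obtain ⟨ρ, hρn, hρ, hρlow⟩ : ∃ ρ ≤ n, L n ρ ≤ m₁ ∧ (m₁ : ℝ) - 2 * s - K ≤ L n ρ := by
    by_cases h : L n n ≤ m₁
    · refine ⟨n, le_rfl, h, ?_⟩
      rw [L_eq le_rfl]
      linarith
    · have hex : ∃ ρ, ¬ L n ρ ≤ m₁ := ⟨n, h⟩
      classical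
      have h1 := Nat.find_spec hex
      have h2 : Nat.find hex ≤ n := Nat.find_le h
      have h0 : Nat.find hex ≠ 0 := by
        intro h0
        rw [h0, L_zero] at h1
        exact h1 (Nat.cast_nonneg _)
      obtain ⟨k, hk⟩ := Nat.exists_eq_succ_of_ne_zero h0
      have h3 : L n k ≤ m₁ := by
        by_contra hcon
        have := Nat.find_min' hex hcon
        omega
      refine ⟨k, by omega, h3, ?_⟩
      have h4 := hK k
      rw [hk] at h1
      push Not at h1
      simp only [Nat.succ_eq_add_one] at h1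
      linarith
  have h5 := a5 ρ hρ
  -- increments
  have hmono : ∀ t t' : ℕ, t ≤ t' → L n (t' + d₂) - L n (t' + d₁) ≤
      L n (t + d₂) - L n (t + d₁) := by
    intro t t' htt
    have := L_logconcave n (s := t + d₁) (t := t' + d₁) (by omega) r
    have e1 : t + d₁ + r = t + d₂ := by omega
    have e2 : t' + d₁ + r = t' + d₂ := by omega
    rw [e1, e2] at this
    linarith
  have hstep : ∀ t : ℕ, L n (t + d₂) - L n (t + d₁) - K ≤
      L n (t + 1 + d₂) - L n (t + 1 + d₁) := by
    intro t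
    have h1 := hK (t + d₁)
    have h2 := L_mono n (r := t + d₂) (s := t + 1 + d₂) (by omega)
    have e : t + d₁ + 1 = t + 1 + d₁ := by omega
    rw [e] at h1
    linarith
  set B : ℝ := (m₂ : ℝ) - m₁ + 3 * s + K with hB
  have hex : ∃ t, L n (t + d₂) - L n (t + d₁) ≤ B := by
    refine ⟨ρ - d₁, ?_⟩
    rcases le_total d₁ ρ with h | h
    · have e1 : ρ - d₁ + d₁ = ρ := by omega
      have e2 : ρ - d₁ + d₂ = ρ + r := by omega
      rw [e1, e2]
      linarith
    · have e1 : ρ - d₁ + d₁ = d₁ := by omega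
      have e2 : ρ - d₁ + d₂ = d₁ + r := by omega
      rw [e1, e2]
      have := L_logconcave n h r
      linarith
  classical
  set t := Nat.find hex with ht
  have ht1 : L n (t + d₂) - L n (t + d₁) ≤ B := Nat.find_spec hex
  have ht0 : t ≤ ρ - d₁ := by
    apply Nat.find_le
    rcases le_total d₁ ρ with h | h
    · have e1 : ρ - d₁ + d₁ = ρ := by omega
      have e2 : ρ - d₁ + d₂ = ρ + r := by omega
      rw [e1, e2]
      linarith
    · have e1 : ρ - d₁ + d₁ = d₁ := by omega
      have e2 : ρ - d₁ + d₂ = d₁ + r := by omega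
      rw [e1, e2]
      have := L_logconcave n h r
      linarith
  have ht2 : (m₂ : ℝ) - m₁ - s ≤ L n (t + d₂) - L n (t + d₁) := by
    rcases Nat.eq_zero_or_pos t with h | h
    · rw [h, zero_add, zero_add]; linarith
    · obtain ⟨k, hk⟩ := Nat.exists_eq_succ_of_ne_zero h.ne'
      have hk' : ¬ (L n (k + d₂) - L n (k + d₁) ≤ B) := by
        apply Nat.find_min hex
        omega
      push Not at hk'
      have h1 := hstep k
      have e : t = k + 1 := hk
      rw [e]
      linarith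
  -- the value at the first radius
  have hup : L n (t + d₁) ≤ m₁ + s := by
    rcases le_total d₁ ρ with h | h
    · have h1 := L_mono n (r := t + d₁) (s := ρ) (by omega)
      linarith
    · have e : t + d₁ = d₁ := by omega
      rw [e]; exact a1
  set w : ℝ := (m₁ : ℝ) - L n (t + d₁) with hw
  have hw1 : -s ≤ w := by linarith
  have hLn := L_nonneg n (t + d₁)
  have hw2 : w ≤ n + 2 * s := by linarith
  refine ⟨min n ⌊w⌋₊, min_le_left _ _, t, by omega, ?_⟩
  have key : |((min n ⌊w⌋₊ : ℕ) : ℝ) - w| ≤ 2 * s + 1 := by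
    rcases le_total w 0 with h | h
    · rw [Nat.floor_of_nonpos h]
      simp only [Nat.min_zero, Nat.cast_zero, zero_sub, abs_neg]
      rw [abs_of_nonpos h]; linarith
    · have f1 := Nat.floor_le h
      have f2 := Nat.lt_floor_add_one w
      rw [abs_le]
      rcases le_total n ⌊w⌋₊ with g | g
      · rw [min_eq_left g]
        have g' : (n : ℝ) ≤ (⌊w⌋₊ : ℝ) := by exact_mod_cast g
        constructor <;> linarith
      · rw [min_eq_right g]
        constructor <;> linarith
  set l : ℝ := ((min n ⌊w⌋₊ : ℕ) : ℝ) with hl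
  have k1 := abs_le.1 key
  constructor
  · rw [abs_le]
    constructor
    · linarith [k1.1, k1.2]
    · linarith [k1.1, k1.2]
  · rw [abs_le]
    constructor
    · linarith [k1.1, k1.2]
    · linarith [k1.1, k1.2]

/-- Each admissible pair of values at the radii `0` and `D` is attained by a string whose
function is its own chord. -/
theorem sharp {U : List Bool →. List Bool} (hU : Optimal U) (a : ℝ) :
    ∃ c : ℝ, ∀ n D m₀ m₁ : ℕ, 2 ≤ n → D ≤ n → Admissible n 0 D m₀ m₁ (a * Real.log n) →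
      ∃ (x : Fin n → Bool) (t : ℕ) (l : ℝ),
        |(M U x 0 : ℝ) - m₀| ≤ c * Real.log n ∧ |(M U x D : ℝ) - m₁| ≤ c * Real.log n ∧
        l + L n t ≤ M U x 0 ∧ l + L n (t + D) ≤ M U x D ∧
        ∀ d ≤ D, (M U x d : ℝ) ≤ l + L n (t + d) + c * Real.log n := by
  obtain ⟨c₁, hc₁⟩ := realize hU
  set A := max a 0 with hAdef
  have hA0 : 0 ≤ A := le_max_right _ _
  refine ⟨20 * A + 20 + 3 * |c₁|, ?_⟩
  intro n D m₀ m₁ hn hD hadm
  have hl1 := one_le_log hn
  have hl2 := logb_le hn
  have hlog : 0 ≤ Real.log (n : ℝ) := by linarith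
  have hs : a * Real.log n ≤ A * Real.log n :=
    mul_le_mul_of_nonneg_right (le_max_left _ _) hlog
  have hAs : 0 ≤ A * Real.log n := mul_nonneg hA0 hlog
  have hadm' : Admissible n 0 D m₀ m₁ (A * Real.log n) := by
    obtain ⟨a1, a2, a3, a4, a5⟩ := hadm
    refine ⟨by linarith, by linarith, by linarith, by linarith, ?_⟩
    intro ρ hρ
    have := a5 ρ hρ
    linarith
  obtain ⟨l, hl, t, ht, g1, g2⟩ := core0 (Nat.zero_le D) hAs (fun r => L_succ n r) hadm'
  obtain ⟨x, hx⟩ := hc₁ n l t hn hl ht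
  have hm1 : (m₁ : ℝ) ≤ n + A * Real.log n := hadm'.2.2.1
  have hm0 : (m₀ : ℝ) ≤ m₁ + A * Real.log n := hadm'.2.1
  have hcl : c₁ * Real.log n ≤ |c₁| * Real.log n :=
    mul_le_mul_of_nonneg_right (le_abs_self _) hlog
  have hcl0 : 0 ≤ |c₁| * Real.log n := mul_nonneg (abs_nonneg _) hlog
  rw [add_zero] at g1
  have b1 := abs_le.1 g1
  have b2 := abs_le.1 g2
  have x0 := abs_le.1 (hx 0 (Nat.zero_le n))
  have xD := abs_le.1 (hx D hD)
  rw [add_zero] at x0
  -- the truncation is harmless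
  have t0 : (l : ℝ) + L n t - 9 * (A * Real.log n) - 1 - Real.logb 2 (n + 1) ≤
      min (n : ℝ) (l + L n t) := by
    refine le_min ?_ ?_
    · linarith [b1.2]
    · have : 0 ≤ Real.logb 2 ((n : ℝ) + 1) :=
        Real.logb_nonneg (by norm_num) (by have : (0 : ℝ) ≤ n := by positivity
                                           linarith)
      linarith
  have tD : (l : ℝ) + L n (t + D) - 9 * (A * Real.log n) - 1 - Real.logb 2 (n + 1) ≤
      min (n : ℝ) (l + L n (t + D)) := by
    refine le_min ?_ ?_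
    · linarith [b2.2]
    · have : 0 ≤ Real.logb 2 ((n : ℝ) + 1) :=
        Real.logb_nonneg (by norm_num) (by have : (0 : ℝ) ≤ n := by positivity
                                           linarith)
      linarith
  have u0 := min_le_right (n : ℝ) (l + L n t)
  have uD := min_le_right (n : ℝ) (l + L n (t + D))
  have hexp : (20 * A + 20 + 3 * |c₁|) * Real.log n =
      20 * (A * Real.log n) + 20 * Real.log n + 3 * (|c₁| * Real.log n) := by ring
  refine ⟨x, t, (l : ℝ) - 9 * (A * Real.log n) - 1 - Real.logb 2 (n + 1) -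
    |c₁| * Real.log n, ?_, ?_, ?_, ?_, ?_⟩
  · rw [hexp, abs_le]
    constructor <;> linarith [b1.1, b1.2, x0.1, x0.2]
  · rw [hexp, abs_le]
    constructor <;> linarith [b2.1, b2.2, xD.1, xD.2]
  · linarith [x0.1]
  · linarith [xD.1]
  · intro d hd
    have xd := abs_le.1 (hx d (hd.trans hD))
    have ud := min_le_right (n : ℝ) (l + L n (t + d))
    rw [hexp]
    linarith [xd.2]

end Pool.Agent.Lib.MP_f4f1a8_lc.Star
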