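import Pool.Agent.Lib.MP_f4f1a8_lc.PNbr
import Pool.Agent.Lib.MP_f4f1a8_lc.LLem

/-!
# MP_f4f1a8_lc, star-shape law: typization of a pair
-/

namespace Pool.Agent.Lib.MP_f4f1a8_lc.Star

open Finset

/-- Predicates on a parameter, two strings and a stage. -/
abbrev SPred := ℕ → List Bool → List Bool → ℕ → Prop

open Classical in
/-- The number of partners of `u` at stage `k`. -/
noncomputable def row (R : SPred) (nn : ℕ → ℕ) (p : ℕ) (u : List Bool) (k : ℕ) : ℕ :=
  ((strs (nn p)).filter (fun v => R p u v k)).length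

/-- The predicate with the two strings exchanged. -/
def sw (R : SPred) : SPred := fun p v u k => R p u v k

/-- Primitive recursive predicates. -/
def PR (R : SPred) : Prop :=
  PrimrecPred (fun a : ℕ × List Bool × List Bool × ℕ => R a.1 a.2.1 a.2.2.1 a.2.2.2)

lemma PR_sw {R : SPred} (hR : PR R) : PR (sw R) := by
  unfold PR sw
  exact PrimrecPred.comp (p := fun a : ℕ × List Bool × List Bool × ℕ =>
      R a.1 a.2.1 a.2.2.1 a.2.2.2) hR
    (Primrec.pair Primrec.fst (Primrec.pair (Primrec.fst.comp (Primrec.snd.comp Primrec.snd))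
      (Primrec.pair (Primrec.fst.comp Primrec.snd)
        (Primrec.snd.comp (Primrec.snd.comp Primrec.snd)))))

lemma primrec_row {R : SPred} {nn : ℕ → ℕ} (hR : PR R) (hn : Primrec nn) :
    Primrec (fun a : ℕ × List Bool × ℕ => row R nn a.1 a.2.1 a.2.2) := by
  classical
  have h : PrimrecRel (fun (v : List Bool) (a : ℕ × List Bool × ℕ) => R a.1 a.2.1 v a.2.2) :=
    PrimrecPred.comp (p := fun a : ℕ × List Bool × List Bool × ℕ =>
      R a.1 a.2.1 a.2.2.1 a.2.2.2) hR
    (Primrec.pair (Primrec.fst.comp Primrec.snd) (Primrec.pair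
      (Primrec.fst.comp (Primrec.snd.comp Primrec.snd))
      (Primrec.pair Primrec.fst (Primrec.snd.comp (Primrec.snd.comp Primrec.snd)))))
  have h2 := PrimrecRel.listFilter h
  exact Primrec.list_length.comp
    (h2.comp (primrec_strs.comp (hn.comp Primrec.fst)) Primrec.id)

lemma row_eq {R : SPred} {nn : ℕ → ℕ} {n p : ℕ} (hp : nn p = n) (x : Fin n → Bool) (k : ℕ)
    [DecidablePred (fun y : Fin n → Bool => R p (List.ofFn x) (List.ofFn y) k)] :
    row R nn p (List.ofFn x) k =
      (univ.filter (fun y : Fin n → Bool => R p (List.ofFn x) (List.ofFn y) k)).card := by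
  classical
  unfold row
  rw [hp, ← List.toFinset_card_of_nodup ((strs_nodup n).filter _),
    ← Finset.card_image_of_injective (univ.filter (fun y : Fin n → Bool =>
      R p (List.ofFn x) (List.ofFn y) k)) (List.ofFn_injective (α := Bool) (n := n))]
  congr 1
  ext v
  simp only [List.mem_toFinset, List.mem_filter, decide_eq_true_eq, mem_image, mem_filter,
    mem_univ, true_and]
  constructor
  · rintro ⟨h1, h2⟩
    have h3 := mem_strs.1 h1
    subst h3
    refine ⟨fun i => v.get i, ?_, List.ofFn_get v⟩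
    rw [List.ofFn_get]
    exact h2
  · rintro ⟨y, h1, rfl⟩
    exact ⟨mem_strs.2 List.length_ofFn, h1⟩

/-- The enumeration of the typical pairs. -/
def Q1 (R : SPred) (nn : ℕ → ℕ) (P : ℕ) (w : List Bool) (k : ℕ) : Prop :=
  ∃ u ∈ strs (nn P.unpair.1), ∃ v ∈ strs (nn P.unpair.1), w = u ++ v ∧
    R P.unpair.1 u v k ∧ row R nn P.unpair.1 u k ≤ 2 ^ P.unpair.2.unpair.1 ∧
      row (sw R) nn P.unpair.1 v k ≤ 2 ^ P.unpair.2.unpair.2

/-- The enumeration of the strings with many partners. -/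
def Q2 (R : SPred) (nn : ℕ → ℕ) (P : ℕ) (u : List Bool) (k : ℕ) : Prop :=
  u.length = nn P.unpair.1 ∧ 2 ^ P.unpair.2 ≤ 2 * row R nn P.unpair.1 u k

lemma primrec_Q2 {R : SPred} {nn : ℕ → ℕ} (hR : PR R) (hn : Primrec nn) :
    PrimrecPred (fun a : ℕ × List Bool × ℕ => Q2 R nn a.1 a.2.1 a.2.2) := by
  have hfst : Primrec (fun p : ℕ => p.unpair.1) := Primrec.fst.comp Primrec.unpair
  have hsnd : Primrec (fun p : ℕ => p.unpair.2) := Primrec.snd.comp Primrec.unpair
  refine PrimrecPred.and ?_ ?_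
  · exact Primrec.eq.comp (Primrec.list_length.comp (Primrec.fst.comp Primrec.snd))
      (hn.comp (hfst.comp Primrec.fst))
  · refine Primrec.nat_le.comp (Descr.primrec_pow.comp (Primrec.const 2)
      (hsnd.comp Primrec.fst)) (Primrec.nat_mul.comp (Primrec.const 2) ?_)
    exact (primrec_row hR hn).comp (Primrec.pair (hfst.comp Primrec.fst) Primrec.snd)

lemma primrec_Q1 {R : SPred} {nn : ℕ → ℕ} (hR : PR R) (hn : Primrec nn) :
    PrimrecPred (fun a : ℕ × List Bool × ℕ => Q1 R nn a.1 a.2.1 a.2.2) := by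
  have hfst : Primrec (fun p : ℕ => p.unpair.1) := Primrec.fst.comp Primrec.unpair
  have hsnd : Primrec (fun p : ℕ => p.unpair.2) := Primrec.snd.comp Primrec.unpair
  have h1 : PrimrecRel (fun (v : List Bool) (b : List Bool × (ℕ × List Bool × ℕ)) =>
      b.2.2.1 = b.1 ++ v ∧ R b.2.1.unpair.1 b.1 v b.2.2.2 ∧
      row R nn b.2.1.unpair.1 b.1 b.2.2.2 ≤ 2 ^ b.2.1.unpair.2.unpair.1 ∧
      row (sw R) nn b.2.1.unpair.1 v b.2.2.2 ≤ 2 ^ b.2.1.unpair.2.unpair.2) := by
    have hv : Primrec (fun a : List Bool × (List Bool × (ℕ × List Bool × ℕ)) => a.1) :=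
      Primrec.fst
    have hu : Primrec (fun a : List Bool × (List Bool × (ℕ × List Bool × ℕ)) => a.2.1) :=
      Primrec.fst.comp Primrec.snd
    have hP : Primrec (fun a : List Bool × (List Bool × (ℕ × List Bool × ℕ)) => a.2.2.1) :=
      Primrec.fst.comp (Primrec.snd.comp Primrec.snd)
    have hw : Primrec (fun a : List Bool × (List Bool × (ℕ × List Bool × ℕ)) => a.2.2.2.1) :=
      Primrec.fst.comp (Primrec.snd.comp (Primrec.snd.comp Primrec.snd))
    have hk : Primrec (fun a : List Bool × (List Bool × (ℕ × List Bool × ℕ)) => a.2.2.2.2) :=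
      Primrec.snd.comp (Primrec.snd.comp (Primrec.snd.comp Primrec.snd))
    refine PrimrecPred.and ?_ (PrimrecPred.and ?_ (PrimrecPred.and ?_ ?_))
    · exact Primrec.eq.comp hw (Primrec.list_append.comp hu hv)
    · exact PrimrecPred.comp (p := fun a : ℕ × List Bool × List Bool × ℕ =>
        R a.1 a.2.1 a.2.2.1 a.2.2.2) hR
        (Primrec.pair (hfst.comp hP) (Primrec.pair hu (Primrec.pair hv hk)))
    · exact Primrec.nat_le.comp ((primrec_row hR hn).comp (Primrec.pair (hfst.comp hP)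
        (Primrec.pair hu hk))) (Descr.primrec_pow.comp (Primrec.const 2)
          (hfst.comp (hsnd.comp hP)))
    · exact Primrec.nat_le.comp ((primrec_row (PR_sw hR) hn).comp (Primrec.pair (hfst.comp hP)
        (Primrec.pair hv hk))) (Descr.primrec_pow.comp (Primrec.const 2)
          (hsnd.comp (hsnd.comp hP)))
  have h2 : PrimrecRel (fun (u : List Bool) (b : ℕ × List Bool × ℕ) =>
      ∃ v ∈ strs (nn b.1.unpair.1), b.2.1 = u ++ v ∧ R b.1.unpair.1 u v b.2.2 ∧
      row R nn b.1.unpair.1 u b.2.2 ≤ 2 ^ b.1.unpair.2.unpair.1 ∧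
      row (sw R) nn b.1.unpair.1 v b.2.2 ≤ 2 ^ b.1.unpair.2.unpair.2) :=
    h1.exists_mem_list.comp (primrec_strs.comp (hn.comp (hfst.comp
      (Primrec.fst.comp Primrec.snd)))) Primrec.id
  exact h2.exists_mem_list.comp (primrec_strs.comp (hn.comp (hfst.comp Primrec.fst))) Primrec.id

end Pool.Agent.Lib.MP_f4f1a8_lc.Star
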