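import Pool.Agent.Lib.MP_f4f1a8_lc.Star.Typ

/-!
# MP_f4f1a8_lc, star-shape law: typization of a pair, the theorem
-/

namespace Pool.Agent.Lib.MP_f4f1a8_lc.Star

open Finset

variable {R : SPred} {nn : ℕ → ℕ} {n p : ℕ}

lemma two_pow_clog_le {r : ℕ} (hr : 0 < r) : 2 ^ Nat.clog 2 r ≤ 2 * r := by
  rcases Nat.lt_or_ge 1 r with h | h
  · have h1 := Nat.pow_pred_clog_lt_self (b := 2) (by norm_num) h
    have h2 : 0 < Nat.clog 2 r := Nat.clog_pos (by norm_num) h
    rw [← Nat.succ_pred_eq_of_pos h2, pow_succ]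
    omega
  · have : r = 1 := by omega
    subst this
    simp

lemma fib (hmono : ∀ p u v k k', k ≤ k' → R p u v k → R p u v k') (hp : nn p = n)
    (T : Finset (Fin n → Bool)) (x : Fin n → Bool) (a : ℕ)
    (h : ∀ y ∈ T, ∃ k, R p (List.ofFn x) (List.ofFn y) k ∧
      row R nn p (List.ofFn x) k ≤ 2 ^ a) : T.card ≤ 2 ^ a := by
  classical
  rcases T.eq_empty_or_nonempty with rfl | hT
  · simp
  · choose! κ hκ using h
    obtain ⟨y₀, hy₀, hmax⟩ := Finset.exists_max_image T κ hT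
    refine le_trans ?_ (hκ y₀ hy₀).2
    rw [row_eq hp]
    refine Finset.card_le_card fun y hy => ?_
    rw [Finset.mem_filter]
    exact ⟨mem_univ _, hmono _ _ _ _ _ (hmax y hy) (hκ y hy).1⟩

lemma row_le {x : Fin n → Bool} [DecidablePred (fun y : Fin n → Bool => ∃ k, R p (List.ofFn x) (List.ofFn y) k)]
    (hp : nn p = n) (k : ℕ) : row R nn p (List.ofFn x) k ≤
    (univ.filter (fun y : Fin n → Bool => ∃ k, R p (List.ofFn x) (List.ofFn y) k)).card := by
  classical
  rw [row_eq hp]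
  refine Finset.card_le_card fun y hy => ?_
  rw [Finset.mem_filter] at hy ⊢
  exact ⟨mem_univ _, k, hy.2⟩

lemma le_row (hmono : ∀ p u v k k', k ≤ k' → R p u v k → R p u v k') (hp : nn p = n)
    (x : Fin n → Bool)
    [DecidablePred (fun y : Fin n → Bool => ∃ k, R p (List.ofFn x) (List.ofFn y) k)] :
    ∃ k, (univ.filter (fun y : Fin n → Bool => ∃ k, R p (List.ofFn x) (List.ofFn y) k)).card ≤
      row R nn p (List.ofFn x) k := by
  classical
  have h : ∀ y ∈ univ.filter (fun y : Fin n → Bool =>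
      ∃ k, R p (List.ofFn x) (List.ofFn y) k), ∃ k, R p (List.ofFn x) (List.ofFn y) k :=
    fun y hy => (Finset.mem_filter.1 hy).2
  choose! κ hκ using h
  refine ⟨(univ.filter (fun y : Fin n → Bool =>
      ∃ k, R p (List.ofFn x) (List.ofFn y) k)).sup κ, ?_⟩
  rw [row_eq hp]
  refine Finset.card_le_card fun y hy => ?_
  rw [Finset.mem_filter]
  exact ⟨mem_univ _, hmono _ _ _ _ _ (Finset.le_sup (f := κ) hy) (hκ y hy)⟩

/-- The number of partners bounds the complexity. -/
lemma side {U : List Bool →. List Bool} (hU : Optimal U) (hR : PR R) (hn : Primrec nn)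
    (hmono : ∀ p u v k k', k ≤ k' → R p u v k → R p u v k') :
    ∃ c : ℕ, ∀ (n p s q : ℕ) (x : Fin n → Bool) (B : Finset (Fin n → Bool)), nn p = n →
      p < 2 ^ s → n < 2 ^ s →
      (∀ A : Finset ((Fin n → Bool) × (Fin n → Bool)),
        (∀ r ∈ A, ∃ k, R p (List.ofFn r.1) (List.ofFn r.2) k) → A.card < 2 ^ (q + 1)) →
      (∀ y, y ∈ B ↔ ∃ k, R p (List.ofFn x) (List.ofFn y) k) → B.Nonempty →
      C U (List.ofFn x) + Nat.clog 2 B.card ≤ q + 4 * s + c := by
  classical
  obtain ⟨c, hc⟩ := description hU (Q2 R nn) (primrec_Q2 hR hn)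
  refine ⟨c + 2, ?_⟩
  intro n p s q x B hp hps hns hA hB hBne
  set a := Nat.clog 2 B.card with ha
  set BB : (Fin n → Bool) → Finset (Fin n → Bool) := fun x' =>
    univ.filter (fun y : Fin n → Bool => ∃ k, R p (List.ofFn x') (List.ofFn y) k) with hBB
  have hBx : B = BB x := by
    ext y; rw [hB]; simp [hBB]
  set X : Finset (Fin n → Bool) := univ.filter (fun x' => 2 ^ a ≤ 2 * (BB x').card) with hX
  have hxX : x ∈ X := by
    rw [hX, mem_filter]
    refine ⟨mem_univ _, ?_⟩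
    rw [ha, ← hBx]
    exact two_pow_clog_le (Finset.card_pos.2 hBne)
  have hsum : X.card * 2 ^ a < 2 ^ (q + 2) := by
    have h1 := hA ((X ×ˢ univ).filter (fun r => ∃ k, R p (List.ofFn r.1) (List.ofFn r.2) k))
      (fun r hr => (Finset.mem_filter.1 hr).2)
    have h2 : ((X ×ˢ (univ : Finset (Fin n → Bool))).filter
        (fun r : (Fin n → Bool) × (Fin n → Bool) =>
          ∃ k, R p (List.ofFn r.1) (List.ofFn r.2) k)).card = ∑ x' ∈ X, (BB x').card := by
      rw [Finset.card_filter, Finset.sum_product]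
      refine Finset.sum_congr rfl fun x' _ => ?_
      simp only [hBB]
      rw [Finset.card_filter]
    have h3 : X.card * 2 ^ a ≤ 2 * ∑ x' ∈ X, (BB x').card := by
      rw [Finset.mul_sum, ← smul_eq_mul, ← Finset.sum_const]
      exact Finset.sum_le_sum fun x' hx' => (Finset.mem_filter.1 hx').2
    rw [h2] at h1
    calc X.card * 2 ^ a ≤ 2 * ∑ x' ∈ X, (BB x').card := h3
      _ < 2 * 2 ^ (q + 1) := by omega
      _ = 2 ^ (q + 2) := by ring
  have haq : a ≤ q + 2 := by
    have h1 : 1 * 2 ^ a ≤ X.card * 2 ^ a :=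
      Nat.mul_le_mul_right _ (Finset.card_pos.2 ⟨x, hxX⟩)
    rw [one_mul] at h1
    exact ((Nat.pow_lt_pow_iff_right (by norm_num : 1 < 2)).1 (h1.trans_lt hsum)).le
  have hXcard : X.card ≤ 2 ^ (q + 2 - a) := by
    have h1 : 2 ^ (q + 2) = 2 ^ (q + 2 - a) * 2 ^ a := by
      rw [← pow_add]; congr 1; omega
    rw [h1] at hsum
    exact (Nat.lt_of_mul_lt_mul_right hsum).le
  have han : a < 2 ^ s := by
    have h1 : a ≤ n := by
      rw [ha]
      refine Nat.clog_le_of_le_pow ?_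
      have h2 := Finset.card_le_univ B
      rwa [Fintype.card_fun, Fintype.card_fin, Fintype.card_bool] at h2
    omega
  have hmain := hc (2 * s) (q + 2 - a) (Nat.pair p a) (List.ofFn x) (X.image List.ofFn)
    (pair_lt_two_pow hps han) ?_ ?_ (Finset.card_image_le.trans hXcard)
  · omega
  · obtain ⟨k, hk⟩ := le_row (R := R) (nn := nn) hmono hp x
    refine ⟨k, ?_⟩
    unfold Q2
    simp only [Nat.unpair_pair]
    refine ⟨by rw [List.length_ofFn, hp], ?_⟩
    have h1 := (Finset.mem_filter.1 hxX).2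
    simp only [hBB] at h1
    omega
  · intro u k hk
    unfold Q2 at hk
    rw [Nat.unpair_pair] at hk
    obtain ⟨h1, h2⟩ := hk
    simp only [hp] at h1
    subst h1
    refine Finset.mem_image.2 ⟨fun i => u.get i, ?_, List.ofFn_get u⟩
    rw [hX, mem_filter]
    refine ⟨mem_univ _, h2.trans (Nat.mul_le_mul_left 2 ?_)⟩
    have h3 := row_le (R := R) (nn := nn) (p := p) (x := fun i => u.get i) hp k
    simp only [List.ofFn_get u] at h3 ⊢
    simp only [hBB]
    rw [show List.ofFn (fun i => u.get i) = u from List.ofFn_get u] at *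
    exact h3

/-- Typization of a pair of strings. -/
theorem typ {U : List Bool →. List Bool} (hU : Optimal U) (hR : PR R) (hn : Primrec nn)
    (hmono : ∀ p u v k k', k ≤ k' → R p u v k → R p u v k') :
    ∃ c : ℕ, ∀ (n p s q : ℕ) (x y : Fin n → Bool), nn p = n → p < 2 ^ s → n < 2 ^ s →
      (∃ k, R p (List.ofFn x) (List.ofFn y) k) →
      (∀ A : Finset ((Fin n → Bool) × (Fin n → Bool)),
        (∀ r ∈ A, ∃ k, R p (List.ofFn r.1) (List.ofFn r.2) k) → A.card < 2 ^ (q + 1)) →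
      ∃ (A : Finset ((Fin n → Bool) × (Fin n → Bool))) (a b : ℕ), A.Nonempty ∧
        (∀ r ∈ A, ∃ k, R p (List.ofFn r.1) (List.ofFn r.2) k) ∧
        (∀ x', (A.filter (fun r => r.1 = x')).card ≤ 2 ^ a) ∧
        (∀ y', (A.filter (fun r => r.2 = y')).card ≤ 2 ^ b) ∧
        C U (List.ofFn x ++ List.ofFn y) ≤ Nat.clog 2 A.card + 8 * s + c ∧
        C U (List.ofFn x) + a ≤ q + 4 * s + c ∧ C U (List.ofFn y) + b ≤ q + 4 * s + c := by
  classical
  have hmono' : ∀ p u v k k', k ≤ k' → sw R p u v k → sw R p u v k' :=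
    fun p u v k k' h h' => hmono p v u k k' h h'
  obtain ⟨c₁, hc₁⟩ := description hU (Q1 R nn) (primrec_Q1 hR hn)
  obtain ⟨c₂, hc₂⟩ := side hU hR hn hmono
  obtain ⟨c₃, hc₃⟩ := side hU (PR_sw hR) hn hmono'
  refine ⟨c₁ + c₂ + c₃, ?_⟩
  intro n p s q x y hp hps hns hxy hcard
  obtain ⟨k₀, hk₀⟩ := hxy
  set B : Finset (Fin n → Bool) :=
    univ.filter (fun y : Fin n → Bool => ∃ k, R p (List.ofFn x) (List.ofFn y) k) with hB
  set B' : Finset (Fin n → Bool) :=
    univ.filter (fun x' : Fin n → Bool => ∃ k, sw R p (List.ofFn y) (List.ofFn x') k) with hB'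
  have hyB : y ∈ B := Finset.mem_filter.2 ⟨mem_univ _, k₀, hk₀⟩
  have hxB' : x ∈ B' := Finset.mem_filter.2 ⟨mem_univ _, k₀, hk₀⟩
  have hcard' : ∀ A : Finset ((Fin n → Bool) × (Fin n → Bool)),
      (∀ r ∈ A, ∃ k, sw R p (List.ofFn r.1) (List.ofFn r.2) k) → A.card < 2 ^ (q + 1) := by
    intro A hA
    rw [← Finset.card_image_of_injective A Prod.swap_injective]
    refine hcard _ fun r hr => ?_
    obtain ⟨r', hr', rfl⟩ := Finset.mem_image.1 hr
    exact hA r' hr'
  have h2 := hc₂ n p s q x B hp hps hns hcard (fun z => by simp [hB]) ⟨y, hyB⟩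
  have h3 := hc₃ n p s q y B' hp hps hns hcard' (fun z => by simp [hB']) ⟨x, hxB'⟩
  set a := Nat.clog 2 B.card with ha
  set b := Nat.clog 2 B'.card with hb
  have hle : ∀ S : Finset (Fin n → Bool), Nat.clog 2 S.card < 2 ^ s := by
    intro S
    refine lt_of_le_of_lt (Nat.clog_le_of_le_pow ?_) hns
    have h2 := Finset.card_le_univ S
    rwa [Fintype.card_fun, Fintype.card_fin, Fintype.card_bool] at h2
  set A : Finset ((Fin n → Bool) × (Fin n → Bool)) := univ.filter (fun r =>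
    ∃ k, R p (List.ofFn r.1) (List.ofFn r.2) k ∧ row R nn p (List.ofFn r.1) k ≤ 2 ^ a ∧
      row (sw R) nn p (List.ofFn r.2) k ≤ 2 ^ b) with hA
  have hxyA : (x, y) ∈ A := by
    rw [hA, Finset.mem_filter]
    refine ⟨mem_univ _, k₀, hk₀, ?_, ?_⟩
    · exact (row_le (R := R) (nn := nn) (x := x) hp k₀).trans (Nat.le_pow_clog (by norm_num) _)
    · exact (row_le (R := sw R) (nn := nn) (x := y) hp k₀).trans
        (Nat.le_pow_clog (by norm_num) _)
  have hsurj : ∀ z ∈ strs n, ∃ x : Fin n → Bool, z = List.ofFn x := by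
    intro z hz
    have hz' := mem_strs.1 hz
    subst hz'
    exact ⟨fun i => z.get i, (List.ofFn_get z).symm⟩
  refine ⟨A, a, b, ⟨_, hxyA⟩, ?_, ?_, ?_, ?_, by omega, by omega⟩
  · intro r hr
    obtain ⟨k, hk, -⟩ := (Finset.mem_filter.1 hr).2
    exact ⟨k, hk⟩
  · intro x'
    have e : (A.filter (fun r => r.1 = x')).card =
        ((A.filter (fun r => r.1 = x')).image Prod.snd).card := by
      rw [Finset.card_image_of_injOn]
      intro r hr r' hr' h
      have h1 := (Finset.mem_filter.1 (Finset.mem_coe.1 hr)).2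
      have h1' := (Finset.mem_filter.1 (Finset.mem_coe.1 hr')).2
      exact Prod.ext (h1.trans h1'.symm) h
    rw [e]
    refine fib (R := R) (nn := nn) hmono hp _ x' a fun y' hy' => ?_
    obtain ⟨r, hr, rfl⟩ := Finset.mem_image.1 hy'
    obtain ⟨h5, rfl⟩ := Finset.mem_filter.1 hr
    obtain ⟨k, hk, hk2, -⟩ := (Finset.mem_filter.1 h5).2
    exact ⟨k, hk, hk2⟩
  · intro y'
    have e : (A.filter (fun r => r.2 = y')).card =
        ((A.filter (fun r => r.2 = y')).image Prod.fst).card := by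
      rw [Finset.card_image_of_injOn]
      intro r hr r' hr' h
      have h1 := (Finset.mem_filter.1 (Finset.mem_coe.1 hr)).2
      have h1' := (Finset.mem_filter.1 (Finset.mem_coe.1 hr')).2
      exact Prod.ext h (h1.trans h1'.symm)
    rw [e]
    refine fib (R := sw R) (nn := nn) hmono' hp _ y' b fun x' hx' => ?_
    obtain ⟨r, hr, rfl⟩ := Finset.mem_image.1 hx'
    obtain ⟨h5, rfl⟩ := Finset.mem_filter.1 hr
    obtain ⟨k, hk, -, hk2⟩ := (Finset.mem_filter.1 h5).2
    exact ⟨k, hk, hk2⟩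
  · have hlt : Nat.pair p (Nat.pair a b) < 2 ^ (2 * (2 * s)) :=
      pair_lt_two_pow (lt_of_lt_of_le hps (Nat.pow_le_pow_right (by norm_num) (by omega)))
        (pair_lt_two_pow (hle B) (hle B'))
    have hmain := hc₁ (2 * (2 * s)) (Nat.clog 2 A.card) (Nat.pair p (Nat.pair a b))
      (List.ofFn x ++ List.ofFn y) (A.image (fun r => List.ofFn r.1 ++ List.ofFn r.2)) hlt ?_ ?_
      (Finset.card_image_le.trans (Nat.le_pow_clog (by norm_num) _))
    · omega
    · obtain ⟨k, hk, hk1, hk2⟩ := (Finset.mem_filter.1 hxyA).2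
      refine ⟨k, ?_⟩
      unfold Q1
      simp only [Nat.unpair_pair]
      exact ⟨_, mem_strs.2 (by rw [List.length_ofFn, hp]), _,
        mem_strs.2 (by rw [List.length_ofFn, hp]), rfl, hk, hk1, hk2⟩
    · intro w k hk
      unfold Q1 at hk
      simp only [Nat.unpair_pair] at hk
      obtain ⟨u, hu, v, hv, rfl, h4, h5, h6⟩ := hk
      rw [hp] at hu hv
      obtain ⟨u, rfl⟩ := hsurj u hu
      obtain ⟨v, rfl⟩ := hsurj v hv
      refine Finset.mem_image.2 ⟨(u, v), ?_, rfl⟩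
      rw [hA, Finset.mem_filter]
      exact ⟨mem_univ _, k, h4, h5, h6⟩

end Pool.Agent.Lib.MP_f4f1a8_lc.Star
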