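import Pool.Agent.Lib.MP_f4f1a8_lc.Star.Chain

/-!
# MP_f4f1a8_lc, star-shape law: numbers of walks and the entropies at the ends
-/

namespace Pool.Agent.Lib.MP_f4f1a8_lc.Star

open Finset

variable {n : ℕ}

/-- The number of walks of length `m` from `x` to `z`. -/
noncomputable def walk : ℕ → (Fin n → Bool) → (Fin n → Bool) → ℝ
  | 0, x, z => if x = z then 1 else 0
  | m + 1, x, z => ∑ i, walk m x (fl z i)

lemma It_eq (φ : (Fin n → Bool) → ℝ) : ∀ (m : ℕ) (z : Fin n → Bool),
    It m φ z = ∑ x, φ x * walk m x z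
  | 0, z => by simp [It, walk]
  | m + 1, z => by
      rw [It_succ]
      simp_rw [It_eq φ m, walk, Finset.mul_sum]
      rw [Finset.sum_comm]

lemma dist_fl_ne {x z : Fin n → Bool} {i : Fin n} (h : x i ≠ z i) :
    hammingDist x (fl z i) + 1 = hammingDist x z := by
  unfold hammingDist
  have e : univ.filter (fun j => x j ≠ z j) = insert i (univ.filter (fun j => x j ≠ fl z i j)) := by
    ext j
    simp only [mem_filter, mem_univ, true_and, mem_insert]
    by_cases hj : j = i
    · subst hj; simp [h]
    · simp [fl, hj]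
  rw [e, Finset.card_insert_of_notMem]
  intro h3
  apply (Finset.mem_filter.1 h3).2
  have h4 : x i = !z i := Bool.eq_not.2 h
  rw [h4, fl, Function.update_self]

lemma dist_fl_eq {x z : Fin n → Bool} {i : Fin n} (h : x i = z i) :
    hammingDist x (fl z i) = hammingDist x z + 1 := by
  have h2 : x i ≠ fl z i i := by
    simp only [fl, Function.update_self]
    rw [h]
    cases z i <;> simp
  have := dist_fl_ne h2
  rw [fl_fl] at this
  exact this.symm

lemma walk_far : ∀ (m : ℕ) (x z : Fin n → Bool), m < hammingDist x z → walk m x z = 0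
  | 0, x, z, h => by
      unfold walk
      rw [if_neg]
      rintro rfl
      simp at h
  | m + 1, x, z, h => by
      unfold walk
      refine Finset.sum_eq_zero fun i _ => walk_far m x _ ?_
      by_cases hi : x i = z i
      · rw [dist_fl_eq hi]; omega
      · have := dist_fl_ne hi
        omega

lemma walk_near : ∀ (m : ℕ) (x z : Fin n → Bool), hammingDist x z = m →
    walk m x z = (m.factorial : ℝ)
  | 0, x, z, h => by
      unfold walk
      rw [if_pos (hammingDist_eq_zero.1 h)]
      simp
  | m + 1, x, z, h => by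
      unfold walk
      have h1 : ∀ i, walk m x (fl z i) = if x i ≠ z i then (m.factorial : ℝ) else 0 := by
        intro i
        by_cases hi : x i = z i
        · rw [if_neg (by simpa using hi)]
          refine walk_far m x _ ?_
          rw [dist_fl_eq hi]; omega
        · rw [if_pos hi]
          refine walk_near m x _ ?_
          have := dist_fl_ne hi
          omega
      simp_rw [h1]
      rw [← Finset.sum_filter, Finset.sum_const, nsmul_eq_mul, Nat.factorial_succ]
      have h2 : (univ.filter (fun i => x i ≠ z i)).card = m + 1 := h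
      rw [h2]
      push_cast
      ring

lemma walk_nonneg : ∀ (m : ℕ) (x z : Fin n → Bool), 0 ≤ walk m x z
  | 0, x, z => by
      unfold walk
      split_ifs <;> norm_num
  | m + 1, x, z => by
      unfold walk
      exact Finset.sum_nonneg fun i _ => walk_nonneg m x _

/-- The support of an iterate. -/
lemma It_supp {φ : (Fin n → Bool) → ℝ} {m : ℕ} {z : Fin n → Bool} (h : It m φ z ≠ 0) :
    ∃ x, φ x ≠ 0 ∧ hammingDist x z ≤ m := by
  rw [It_eq] at h
  obtain ⟨x, -, hx⟩ := Finset.exists_ne_zero_of_sum_ne_zero h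
  refine ⟨x, left_ne_zero_of_mul hx, ?_⟩
  by_contra hcon
  push Not at hcon
  exact right_ne_zero_of_mul hx (walk_far m x z hcon)

/-- Entropy is bounded by the logarithm of the size of the support. -/
lemma Hp_le_card (p : (Fin n → Bool) → ℝ) (hp : ∀ z, 0 ≤ p z) (h1 : ∑ z, p z = 1)
    (S : Finset (Fin n → Bool)) (hS : ∀ z, p z ≠ 0 → z ∈ S) :
    Hp p ≤ Real.log S.card := by
  have h := exp_sum_log_le univ p (fun z => (p z)⁻¹) (fun z _ => hp z) h1
    (fun z _ hz => inv_pos.2 (lt_of_le_of_ne (hp z) (Ne.symm hz)))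
  have e1 : ∑ z, p z * Real.log ((p z)⁻¹) = Hp p := by
    unfold Hp
    refine Finset.sum_congr rfl fun z _ => ?_
    rw [Real.log_inv, Real.negMulLog]
    ring
  have e2 : ∑ z, p z * (p z)⁻¹ ≤ (S.card : ℝ) := by
    have h2 : ∀ z ∈ univ, p z * (p z)⁻¹ ≤ if z ∈ S then (1 : ℝ) else 0 := by
      intro z _
      by_cases hz : p z = 0
      · rw [hz, zero_mul]
        split_ifs <;> norm_num
      · rw [mul_inv_cancel₀ hz, if_pos (hS z hz)]
    refine (Finset.sum_le_sum h2).trans (le_of_eq ?_)
    simp
  rw [e1] at h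
  have h3 := h.trans e2
  have h4 := Real.log_le_log (Real.exp_pos _) h3
  rwa [Real.log_exp] at h4

/-- Entropy is bounded from below by the smallest surprise. -/
lemma le_Hp (p : (Fin n → Bool) → ℝ) (hp : ∀ z, 0 ≤ p z) (h1 : ∑ z, p z = 1) (c : ℝ)
    (hc : ∀ z, p z ≤ c) : - Real.log c ≤ Hp p := by
  unfold Hp
  have h2 : ∀ z ∈ univ, p z * (- Real.log c) ≤ Real.negMulLog (p z) := by
    intro z _
    rw [Real.negMulLog]
    rcases (hp z).eq_or_lt with h | h
    · rw [← h]; simp
    · have := Real.log_le_log h (hc z)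
      nlinarith
  have := Finset.sum_le_sum h2
  rw [← Finset.sum_mul, h1, one_mul] at this
  exact this

/-- The entropic chord inequality for a set `G` and a set `Λ` of points at distance exactly `D`
from `G`, when no point of `G` is the nearest point of too many points of `Λ`. -/
theorem ent_sets (G Λ : Finset (Fin n → Bool)) (D : ℕ) (hΛ : Λ.Nonempty)
    (h1 : ∀ y ∈ Λ, ∀ x ∈ G, D ≤ hammingDist x y)
    (h2 : ∀ y ∈ Λ, ∃ x ∈ G, hammingDist x y = D) (c : ℝ)
    (hc : ∀ x ∈ G, ∑ y ∈ Λ.filter (fun y => hammingDist x y = D),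
      1 / ((G.filter (fun x' => hammingDist x' y = D)).card : ℝ) ≤ Λ.card * c)
    (t : ℕ) (l : ℝ) (htD : t + D ≤ n)
    (ha : l + Real.log (n.choose t) ≤ - Real.log c)
    (hb : l + Real.log (n.choose (t + D)) ≤ Real.log Λ.card) (S : Finset (Fin n → Bool))
    (d : ℕ) (hd : d ≤ D) (hS : ∀ z x, x ∈ G → hammingDist x z ≤ d → z ∈ S) :
    l + Real.log (n.choose (t + d)) ≤ Real.log S.card := by
  classical
  have hN : (0 : ℝ) < Λ.card := by exact_mod_cast Finset.card_pos.2 hΛ
  set r : (Fin n → Bool) → ℝ := fun y => ((G.filter (fun x' => hammingDist x' y = D)).card : ℝ)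
    with hr
  have hrpos : ∀ y ∈ Λ, 0 < r y := by
    intro y hy
    obtain ⟨x, hx, hxy⟩ := h2 y hy
    simp only [hr]
    exact_mod_cast Finset.card_pos.2 ⟨x, Finset.mem_filter.2 ⟨hx, hxy⟩⟩
  set f : (Fin n → Bool) → ℝ := fun x => if x ∈ G then 1 else 0 with hf
  set g : (Fin n → Bool) → ℝ := fun y => if y ∈ Λ then 1 / (Λ.card * (D.factorial * r y)) else 0
    with hg
  have hf0 : ∀ z, 0 ≤ f z := fun z => by
    simp only [hf]; split_ifs <;> norm_num
  have hg0 : ∀ z, 0 ≤ g z := fun z => by
    simp only [hg]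
    split_ifs
    · have : 0 ≤ r z := by simp only [hr]; positivity
      positivity
    · exact le_rfl
  have hfG : ∀ z, f z ≠ 0 → z ∈ G := fun z h => by
    by_contra hcon; exact h (by simp only [hf, if_neg hcon])
  have hgΛ : ∀ z, g z ≠ 0 → z ∈ Λ := fun z h => by
    by_contra hcon; exact h (by simp only [hg, if_neg hcon])
  have hsep : ∀ j m, j + m < D → ∀ z, It j f z * It m g z = 0 := by
    intro j m hjm z
    by_contra hcon
    obtain ⟨x, hx, hxz⟩ := It_supp (left_ne_zero_of_mul hcon)
    obtain ⟨y, hy, hyz⟩ := It_supp (right_ne_zero_of_mul hcon)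
    have h3 := h1 y (hgΛ y hy) x (hfG x hx)
    have h4 := hammingDist_triangle x z y
    rw [hammingDist_comm z y] at h4
    omega
  have hwalk : ∀ x ∈ G, ∀ y ∈ Λ, walk D x y =
      if hammingDist x y = D then (D.factorial : ℝ) else 0 := by
    intro x hx y hy
    split_ifs with h
    · exact walk_near D x y h
    · exact walk_far D x y (lt_of_le_of_ne (h1 y hy x hx) (Ne.symm h))
  have hFD : ∀ y ∈ Λ, It D f y = D.factorial * r y := by
    intro y hy
    rw [It_eq]
    have e : ∀ x, f x * walk D x y =
        if x ∈ G then (if hammingDist x y = D then (D.factorial : ℝ) else 0) else 0 := by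
      intro x
      by_cases hx : x ∈ G
      · simp only [hf, if_pos hx, one_mul]
        exact hwalk x hx y hy
      · simp only [hf, if_neg hx, zero_mul]
    simp_rw [e]
    rw [← Finset.sum_filter, Finset.filter_mem_eq_inter, Finset.univ_inter, ← Finset.sum_filter,
      Finset.sum_const, nsmul_eq_mul, mul_comm]
  have hPD : ∀ y, It D f y * g y = if y ∈ Λ then 1 / (Λ.card : ℝ) else 0 := by
    intro y
    by_cases hy : y ∈ Λ
    · rw [if_pos hy, hFD y hy]
      simp only [hg, if_pos hy]
      have := hrpos y hy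
      have h5 : (D.factorial : ℝ) ≠ 0 := by exact_mod_cast D.factorial_ne_zero
      field_simp
    · rw [if_neg hy]
      simp only [hg, if_neg hy, mul_zero]
  have hnorm : ∑ z, f z * It D g z = 1 := by
    rw [← It_norm f g D D le_rfl, Nat.sub_self]
    change ∑ z, It D f z * g z = 1
    simp_rw [hPD]
    rw [← Finset.sum_filter, Finset.filter_mem_eq_inter, Finset.univ_inter, Finset.sum_const,
      nsmul_eq_mul]
    field_simp
  have hsum1 : ∀ j ≤ D, ∑ z, Pj f g D j z = 1 := fun j hj => by
    rw [← hnorm]; exact It_norm f g D j hj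
  -- the start
  have hstart : - Real.log c ≤ Hp (Pj f g D 0) := by
    refine le_Hp _ (Pj_nonneg hf0 hg0 0) (hsum1 0 (Nat.zero_le _)) c ?_
    intro x
    unfold Pj
    change f x * It (D - 0) g x ≤ c
    rw [Nat.sub_zero]
    obtain ⟨y₀, hy₀⟩ := hΛ
    obtain ⟨x₀, hx₀, -⟩ := h2 y₀ hy₀
    have hcpos : 0 ≤ c := by
      have h6 := hc x₀ hx₀
      have h7 : 0 ≤ ∑ y ∈ Λ.filter (fun y => hammingDist x₀ y = D),
        1 / ((G.filter (fun x' => hammingDist x' y = D)).card : ℝ) :=
        Finset.sum_nonneg fun y _ => by positivity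
      by_contra hcon
      push Not at hcon
      have := mul_neg_of_pos_of_neg hN hcon
      linarith
    by_cases hx : x ∈ G
    · simp only [hf, if_pos hx, one_mul]
      rw [It_eq]
      have e : ∀ y, g y * walk D y x = if y ∈ Λ then (if hammingDist x y = D then
          (1 / (Λ.card : ℝ)) * (1 / r y) else 0) else 0 := by
        intro y
        by_cases hy : y ∈ Λ
        · rw [if_pos hy]
          simp only [hg, if_pos hy]
          by_cases hxy : hammingDist x y = D
          · rw [if_pos hxy, walk_near D y x (by rw [hammingDist_comm]; exact hxy)]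
            have := hrpos y hy
            have h5 : (D.factorial : ℝ) ≠ 0 := by exact_mod_cast D.factorial_ne_zero
            field_simp
          · rw [if_neg hxy, walk_far D y x, mul_zero]
            rw [hammingDist_comm]
            exact lt_of_le_of_ne (h1 y hy x hx) (Ne.symm hxy)
        · rw [if_neg hy]
          simp only [hg, if_neg hy, zero_mul]
      simp_rw [e]
      rw [← Finset.sum_filter, Finset.filter_mem_eq_inter, Finset.univ_inter,
        ← Finset.sum_filter, ← Finset.mul_sum]
      have h8 := hc x hx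
      have h9 : 1 / (Λ.card : ℝ) * ∑ y ∈ Λ.filter (fun y => hammingDist x y = D), 1 / r y ≤
          1 / (Λ.card : ℝ) * (Λ.card * c) :=
        mul_le_mul_of_nonneg_left h8 (by positivity)
      refine h9.trans (le_of_eq ?_)
      field_simp
    · simp only [hf, if_neg hx, zero_mul]
      exact hcpos
  -- the end
  have hend : Hp (Pj f g D D) = Real.log Λ.card := by
    unfold Hp Pj
    rw [Nat.sub_self]
    change ∑ z, Real.negMulLog (It D f z * g z) = _
    simp_rw [hPD]
    have e : ∀ y, Real.negMulLog (if y ∈ Λ then 1 / (Λ.card : ℝ) else 0) =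
        if y ∈ Λ then Real.negMulLog (1 / (Λ.card : ℝ)) else 0 := by
      intro y
      split_ifs
      · rfl
      · simp
    simp_rw [e]
    rw [← Finset.sum_filter, Finset.filter_mem_eq_inter, Finset.univ_inter, Finset.sum_const,
      nsmul_eq_mul, Real.negMulLog, one_div, Real.log_inv]
    field_simp
  have hmain := ent_chord hf0 hg0 hsep hnorm t l htD (ha.trans hstart) (by rw [hend]; exact hb)
    d hd
  refine hmain.trans (Hp_le_card _ (Pj_nonneg hf0 hg0 d) (hsum1 d hd) S ?_)
  intro z hz
  unfold Pj at hz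
  obtain ⟨x, hx, hxz⟩ := It_supp (left_ne_zero_of_mul hz)
  exact hS z x (hfG x hx) hxz

end Pool.Agent.Lib.MP_f4f1a8_lc.Star
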